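import Pool.Agent.Lib.MP_ac5134_an.FR.BPop

/-!
# FR2-BTuple: a small difference set from many paths

For `d ∈ A' - B'` fix `a ∈ A'`, `b ∈ B'`, `d = a - b`.  Every path `(b', a')` and all representations
`a - b' = x₁ - y₁`, `a' - b' = x₂ - y₂`, `a' - b = x₃ - y₃` give the tuple `(x₁, y₁, x₂, y₂, x₃, y₃) ∈ G⁶` with
`d = (x₁ - y₁) - (x₂ - y₂) + (x₃ - y₃)`; the tuple determines `b' = a - (x₁ - y₁)`, `a' = b + (x₃ - y₃)`, so there are at least
`paths · (#G / (2 D))³` tuples for this `d`, and tuples of different `d` are different.  Hence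
`#(A' - B') · p (#G / (2 D))³ ≤ #G⁶`, `p = #G² / (4096 K⁵)`, `K = 2 D`:
`#(A' - B') ≤ 4096 (2 D)⁵ (2 D)³ #G = 4096 (2 D)⁸ #G`.
-/

open Finset
open scoped Pointwise

namespace Pool.Agent.MPac5134.BSG

theorem card_sub_le {H : Type} [AddCommGroup H] [DecidableEq H] (G A' B' : Finset H)
    (hG : G.Nonempty) {D : ℝ} (hD : 1 ≤ D)
    (hp : ∀ a ∈ A', ∀ b ∈ B',
      (G.card : ℝ) * G.card ≤ 4096 * (2 * D) ^ 5 * paths G G (Pop G D) a b) :
    ((A' - B').card : ℝ) ≤ 4096 * (2 * D) ^ 8 * G.card := by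
  classical
  have hch : ∀ d : H, ∃ p : H × H, d ∈ A' - B' → p.1 ∈ A' ∧ p.2 ∈ B' ∧ p.1 - p.2 = d := by
    intro d
    by_cases hd : d ∈ A' - B'
    · obtain ⟨a, ha, b, hb, hab⟩ := Finset.mem_sub.mp hd
      exact ⟨(a, b), fun _ => ⟨ha, hb, hab⟩⟩
    · exact ⟨(0, 0), fun h => absurd h hd⟩
  choose p hpp using hch
  set R : H → Finset (H × H) := fun e => (G ×ˢ G).filter (fun t => t.1 - t.2 = e) with hR
  set F : H → Finset (H × H) := fun d =>
    (G ×ˢ G).filter (fun t => Pop G D (p d).1 t.1 ∧ Pop G D t.2 t.1 ∧ Pop G D t.2 (p d).2) with hF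
  have hg : (0 : ℝ) < G.card := by exact_mod_cast hG.card_pos
  have hrep : ∀ e, rep G e = (R e).card := by
    intro e
    simp only [rep, hR]
    congr
  set S : Finset (Σ _ : H, Σ _ : H × H, (H × H) × (H × H) × (H × H)) :=
    (A' - B').sigma (fun d => (F d).sigma (fun t =>
      R ((p d).1 - t.1) ×ˢ (R (t.2 - t.1) ×ˢ R (t.2 - (p d).2)))) with hS
  have hcard : S.card ≤ ((G ×ˢ G) ×ˢ ((G ×ˢ G) ×ˢ (G ×ˢ G))).card := by
    refine Finset.card_le_card_of_injOn (fun s => s.2.2) ?_ ?_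
    · intro s hs
      simp only [hS, hR, Finset.coe_sigma, Set.mem_sigma_iff, Finset.mem_coe, Finset.mem_product,
        Finset.mem_filter] at hs ⊢
      obtain ⟨_, _, h1, h2, h3⟩ := hs
      exact ⟨h1.1, h2.1, h3.1⟩
    · rintro ⟨d, t, q⟩ hs ⟨d', t', q'⟩ hs' hqq
      simp only [hS, hR, Finset.coe_sigma, Set.mem_sigma_iff, Finset.mem_coe, Finset.mem_product,
        Finset.mem_filter] at hs hs' hqq
      subst hqq
      obtain ⟨hd, _, ⟨_, h1⟩, ⟨_, h2⟩, ⟨_, h3⟩⟩ := hs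
      obtain ⟨hd', _, ⟨_, h1'⟩, ⟨_, h2'⟩, ⟨_, h3'⟩⟩ := hs'
      have hdd := (hpp d hd).2.2
      have hdd' := (hpp d' hd').2.2
      have e1 : (p d).1 - t.1 = (p d').1 - t'.1 := by rw [← h1, ← h1']
      have e2 : t.2 - t.1 = t'.2 - t'.1 := by rw [← h2, ← h2']
      have e3 : t.2 - (p d).2 = t'.2 - (p d').2 := by rw [← h3, ← h3']
      have hde : d = d' := by
        rw [← hdd, ← hdd']
        have a1 : (p d).1 - (p d).2 = ((p d).1 - t.1) - (t.2 - t.1) + (t.2 - (p d).2) := by abel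
        have a2 : (p d').1 - (p d').2 = ((p d').1 - t'.1) - (t'.2 - t'.1) + (t'.2 - (p d').2) := by
          abel
        rw [a1, a2, e1, e2, e3]
      subst hde
      have ht1 : t.1 = t'.1 := by simpa using e1
      have ht2 : t.2 = t'.2 := by simpa using e3
      have htt : t = t' := Prod.ext ht1 ht2
      subst htt
      rfl
  have hSc : S.card = ∑ d ∈ A' - B', ∑ t ∈ F d,
      (R ((p d).1 - t.1)).card * ((R (t.2 - t.1)).card * (R (t.2 - (p d).2)).card) := by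
    simp only [hS, Finset.card_sigma, Finset.card_product]
  have hlow : ∀ d ∈ A' - B', (G.card : ℝ) * G.card * (G.card : ℝ) ^ 3 ≤
      4096 * (2 * D) ^ 8 * ((∑ t ∈ F d,
      (R ((p d).1 - t.1)).card * ((R (t.2 - t.1)).card * (R (t.2 - (p d).2)).card) : ℕ) : ℝ) := by
    intro d hd
    obtain ⟨ha, hb, _⟩ := hpp d hd
    have h := hp _ ha _ hb
    have hpath : paths G G (Pop G D) (p d).1 (p d).2 = (F d).card := by
      simp only [paths, hF]
    rw [hpath] at h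
    have hterm : ∀ t ∈ F d, (G.card : ℝ) ^ 3 ≤ (2 * D) ^ 3 *
        (((R ((p d).1 - t.1)).card * ((R (t.2 - t.1)).card * (R (t.2 - (p d).2)).card) : ℕ) : ℝ) := by
      intro t ht
      simp only [hF, Finset.mem_filter] at ht
      obtain ⟨_, h1, h2, h3⟩ := ht
      have h1' : (G.card : ℝ) ≤ 2 * D * (R ((p d).1 - t.1)).card := by rw [← hrep]; exact h1
      have h2' : (G.card : ℝ) ≤ 2 * D * (R (t.2 - t.1)).card := by rw [← hrep]; exact h2
      have h3' : (G.card : ℝ) ≤ 2 * D * (R (t.2 - (p d).2)).card := by rw [← hrep]; exact h3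
      have hg0 := hg.le
      calc (G.card : ℝ) ^ 3 = G.card * (G.card * G.card) := by ring
        _ ≤ (2 * D * (R ((p d).1 - t.1)).card) *
            ((2 * D * (R (t.2 - t.1)).card) * (2 * D * (R (t.2 - (p d).2)).card)) := by
          gcongr
        _ = _ := by push_cast; ring
    have hsum : (F d).card * (G.card : ℝ) ^ 3 ≤ (2 * D) ^ 3 * ((∑ t ∈ F d,
      (R ((p d).1 - t.1)).card * ((R (t.2 - t.1)).card * (R (t.2 - (p d).2)).card) : ℕ) : ℝ) := by
      rw [Nat.cast_sum, Finset.mul_sum, ← nsmul_eq_mul, ← Finset.sum_const]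
      exact Finset.sum_le_sum hterm
    have hg3 : (0 : ℝ) ≤ (G.card : ℝ) ^ 3 := by positivity
    calc (G.card : ℝ) * G.card * (G.card : ℝ) ^ 3
        ≤ (4096 * (2 * D) ^ 5 * (F d).card) * (G.card : ℝ) ^ 3 :=
          mul_le_mul_of_nonneg_right h hg3
      _ = 4096 * (2 * D) ^ 5 * ((F d).card * (G.card : ℝ) ^ 3) := by ring
      _ ≤ 4096 * (2 * D) ^ 5 * ((2 * D) ^ 3 * ((∑ t ∈ F d,
      (R ((p d).1 - t.1)).card * ((R (t.2 - t.1)).card * (R (t.2 - (p d).2)).card) : ℕ) : ℝ)) := by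
          apply mul_le_mul_of_nonneg_left hsum
          positivity
      _ = _ := by ring
  have htot : ((A' - B').card : ℝ) * ((G.card : ℝ) * G.card * (G.card : ℝ) ^ 3) ≤
      4096 * (2 * D) ^ 8 * (S.card : ℝ) := by
    rw [hSc, Nat.cast_sum, Finset.mul_sum, ← nsmul_eq_mul, ← Finset.sum_const]
    exact Finset.sum_le_sum hlow
  have hS6 : (S.card : ℝ) ≤ (G.card : ℝ) ^ 6 := by
    have h := hcard
    simp only [Finset.card_product] at h
    have h' : (S.card : ℝ) ≤ ((G.card * G.card * (G.card * G.card * (G.card * G.card)) : ℕ) : ℝ) := by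
      exact_mod_cast h
    refine h'.trans (le_of_eq ?_)
    push_cast
    ring
  have hfin : ((A' - B').card : ℝ) * (G.card : ℝ) ^ 5 ≤
      (4096 * (2 * D) ^ 8 * G.card) * (G.card : ℝ) ^ 5 := by
    have hc : (0 : ℝ) ≤ 4096 * (2 * D) ^ 8 := by positivity
    calc ((A' - B').card : ℝ) * (G.card : ℝ) ^ 5
        = ((A' - B').card : ℝ) * ((G.card : ℝ) * G.card * (G.card : ℝ) ^ 3) := by ring
      _ ≤ 4096 * (2 * D) ^ 8 * (S.card : ℝ) := htot
      _ ≤ 4096 * (2 * D) ^ 8 * (G.card : ℝ) ^ 6 := mul_le_mul_of_nonneg_left hS6 hc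
      _ = _ := by ring
  exact le_of_mul_le_mul_right hfin (by positivity)

end Pool.Agent.MPac5134.BSG
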