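import Pool.Agent.Lib.MP_ac5134_an.FR.BThree
import Pool.Agent.Lib.MP_ac5134_an.FR.BTuple

/-!
# FR2-BFinal: the Balog-Szemerédi-Gowers theorem

`D ≥ 1` may be assumed (`E[G] ≤ #G³`, so `D ≥ 1` automatically for `G` nonempty).  `edges_ge`, `paths_three` with
`K = 2 D`: `A', B'` with `#G ≤ 16 D #A'`, `#G ≤ 8 D #B'`; `card_sub_le`: `#(A' - B') ≤ C #G`, `C = 4096 (2 D)⁸`.
Ruzsa's triangle inequality `#(A' - A') #B' ≤ #(A' - B') #(B' - A')` (`Finset.ruzsa_triangle_inequality_sub_sub_sub`),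
`#(B' - A') = #(A' - B')`: `#(A' - A') ≤ 8 D C² #G ≤ 128 D² C² #A'`, and Plünnecke
(`Finset.pluennecke_ruzsa_inequality_nsmul_sub`, `n = 2`): `#(2 • A') ≤ (128 D² C²)² #A'`.  `G' = A'`.
-/

open Finset
open scoped Pointwise Combinatorics.Additive

namespace Pool.Agent.MPac5134.BSG

/-- The Balog–Szemerédi–Gowers theorem with explicit constants. -/
theorem bsg_explicit (D : ℕ) {H : Type} [AddCommGroup H] [DecidableEq H] (G : Finset H)
    (hG : G.Nonempty) (hE : G.card ^ 3 ≤ D * E[G]) :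
    ∃ G' ⊆ G, G.card ≤ ((128 * D ^ 2 * (4096 * (2 * D) ^ 8) ^ 2) ^ 2 + 16 * D) * G'.card ∧
      (G' + G').card ≤ ((128 * D ^ 2 * (4096 * (2 * D) ^ 8) ^ 2) ^ 2 + 16 * D) * G'.card := by
  have hGpos : 0 < G.card := hG.card_pos
  have hD : 1 ≤ D := by
    rcases Nat.eq_zero_or_pos D with h | h
    · exfalso
      rw [h, zero_mul] at hE
      have : 0 < G.card ^ 3 := by positivity
      omega
    · exact h
  have hDr : (1 : ℝ) ≤ D := by exact_mod_cast hD
  have hEr : (G.card : ℝ) ^ 3 ≤ (D : ℝ) * (E[G] : ℕ) := by exact_mod_cast hE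
  have h1 := edges_ge G (by linarith : (0 : ℝ) < D) hEr
  obtain ⟨A', hA', B', hB', hA, hB, hp⟩ := paths_three G G hG hG (Pop G (D : ℝ))
    (by linarith : (1 : ℝ) ≤ 2 * D) h1
  have h2 := card_sub_le G A' B' hG hDr hp
  set C : ℝ := 4096 * (2 * (D : ℝ)) ^ 8 with hC
  have hC0 : 0 ≤ C := by positivity
  have hn : (0 : ℝ) < G.card := by exact_mod_cast hGpos
  have hApos : 0 < A'.card := by
    rcases Nat.eq_zero_or_pos A'.card with h | h
    · exfalso
      rw [h, Nat.cast_zero, mul_zero] at hA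
      linarith
    · exact h
  have hBpos : 0 < B'.card := by
    rcases Nat.eq_zero_or_pos B'.card with h | h
    · exfalso
      rw [h, Nat.cast_zero, mul_zero] at hB
      linarith
    · exact h
  have hAr : (0 : ℝ) < A'.card := by exact_mod_cast hApos
  have hBr : (0 : ℝ) < B'.card := by exact_mod_cast hBpos
  -- Ruzsa
  have h3 : (A' - A').card * B'.card ≤ (A' - B').card * (A' - B').card :=
    ruzsa_triangle_inequality_sub_sub_sub A' B' A'
  have h3r : ((A' - A').card : ℝ) * B'.card ≤ (A' - B').card * (A' - B').card := by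
    exact_mod_cast h3
  have h5 : ((A' - B').card : ℝ) * (A' - B').card ≤ (C * G.card) * (C * G.card) := by
    apply mul_le_mul h2 h2 (by positivity) (by positivity)
  have h6 : ((A' - A').card : ℝ) ≤ 128 * (D : ℝ) ^ 2 * C ^ 2 * A'.card := by
    have h7 : ((A' - A').card : ℝ) * B'.card ≤ (8 * D * C ^ 2 * G.card) * B'.card := by
      calc ((A' - A').card : ℝ) * B'.card ≤ (C * G.card) * (C * G.card) := h3r.trans h5
        _ = (C ^ 2 * G.card) * G.card := by ring
        _ ≤ (C ^ 2 * G.card) * (4 * (2 * D) * B'.card) := by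
            apply mul_le_mul_of_nonneg_left hB (by positivity)
        _ = (8 * D * C ^ 2 * G.card) * B'.card := by ring
    have h8 : ((A' - A').card : ℝ) ≤ 8 * D * C ^ 2 * G.card := le_of_mul_le_mul_right h7 hBr
    calc ((A' - A').card : ℝ) ≤ 8 * D * C ^ 2 * G.card := h8
      _ ≤ 8 * D * C ^ 2 * (8 * (2 * D) * A'.card) := by
          apply mul_le_mul_of_nonneg_left hA (by positivity)
      _ = 128 * (D : ℝ) ^ 2 * C ^ 2 * A'.card := by ring
  have hAne : A'.Nonempty := card_pos.1 hApos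
  -- Plünnecke
  have h9 : ((2 • A').card : ℚ≥0) ≤ ((A' - A').card / A'.card : ℚ≥0) ^ 2 * A'.card :=
    pluennecke_ruzsa_inequality_nsmul_sub hAne A' 2
  have h10 : ((2 • A').card : ℝ) ≤ ((A' - A').card / A'.card : ℝ) ^ 2 * A'.card := by
    have := (NNRat.cast_le (K := ℝ)).2 h9
    push_cast at this
    exact this
  have h11 : ((A' - A').card : ℝ) / A'.card ≤ 128 * (D : ℝ) ^ 2 * C ^ 2 := by
    rw [div_le_iff₀ hAr]
    exact h6
  have h12 : ((2 • A').card : ℝ) ≤ (128 * (D : ℝ) ^ 2 * C ^ 2) ^ 2 * A'.card := by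
    refine h10.trans ?_
    apply mul_le_mul_of_nonneg_right _ hAr.le
    apply pow_le_pow_left₀ (by positivity) h11
  rw [two_nsmul] at h12
  refine ⟨A', hA', ?_, ?_⟩
  · have h13 : (G.card : ℝ) ≤
        (((128 * D ^ 2 * (4096 * (2 * D) ^ 8) ^ 2) ^ 2 + 16 * D : ℕ) : ℝ) * A'.card := by
      push_cast
      have h14 : (0 : ℝ) ≤ (128 * (D : ℝ) ^ 2 * (4096 * (2 * D) ^ 8) ^ 2) ^ 2 * A'.card := by
        positivity
      nlinarith [hA, h14]
    exact_mod_cast h13
  · have h13 : ((A' + A').card : ℝ) ≤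
        (((128 * D ^ 2 * (4096 * (2 * D) ^ 8) ^ 2) ^ 2 + 16 * D : ℕ) : ℝ) * A'.card := by
      push_cast
      have h14 : (0 : ℝ) ≤ 16 * (D : ℝ) * A'.card := by positivity
      rw [hC] at h12
      linarith [h12, h14]
    exact_mod_cast h13

theorem bsg (D : ℕ) : ∃ D' : ℕ, ∀ (H : Type) [AddCommGroup H] [DecidableEq H] (G : Finset H),
    G.Nonempty → G.card ^ 3 ≤ D * E[G] →
    ∃ G' ⊆ G, G.card ≤ D' * G'.card ∧ (G' + G').card ≤ D' * G'.card :=
  ⟨_, fun _ _ _ G hG hE => bsg_explicit D G hG hE⟩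

end Pool.Agent.MPac5134.BSG
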