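import Pool.Agent.Lib.MP_ac5134_an.FR.Fourier

/-!
# FR2-Bogo: Bogolyubov's lemma in `ZMod M`

`Γ = {ξ : F2 A ξ * M ≥ #A ^ 3}` (that is `|Â(ξ)|² ≥ α #A²`, `α = #A / M`).
* `#Γ (#A^3 / M) ≤ ∑ ξ F2 A ξ = M #A`, so `#Γ #A² ≤ M²`.
* `0 ∈ Γ` (`F2 A 0 = #A²`, `#A ≤ M`).
* for `x` with `4 |(x ξ).valMinAbs| ≤ M` on `Γ`: `M rep4 A x = ∑ ξ F2² cosv ≥ F2(0)² · 1 - ∑ ξ ∉ Γ F2²`
  (terms of `Γ \ {0}` are `≥ 0`), and `∑ ξ ∉ Γ F2² < (#A³/M) ∑ F2 = #A⁴` if `Γᶜ ≠ ∅` has a term with `F2 > 0`, in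
  general `∑ ξ ∉ Γ F2² ≤ (max over Γᶜ of F2) · (∑ ξ ∉ Γ F2) < #A⁴`: use `∑ ξ ∉ Γ F2 ≤ M #A - F2(0) = M #A - #A² < M #A`,
  which is strict: `∑ ξ ∉ Γ F2² ≤ (#A³/M)(M #A - #A²) < #A⁴`.
  So `rep4 A x > 0`.
-/

open Finset

namespace Pool.Agent.MPac5134.FR

theorem bogolyubov {M : ℕ} [NeZero M] (A : Finset (ZMod M)) (hA : A.Nonempty) :
    ∃ Γ : Finset (ZMod M), Γ.card * A.card ^ 2 ≤ M ^ 2 ∧
      ∀ x : ZMod M, (∀ ξ ∈ Γ, 4 * |(ξ * x).valMinAbs| ≤ M) →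
        ∃ a ∈ A, ∃ b ∈ A, ∃ c ∈ A, ∃ d ∈ A, x = a + b - c - d := by
  classical
  have ha : (0 : ℝ) < A.card := by exact_mod_cast hA.card_pos
  have hM : (0 : ℝ) < M := by exact_mod_cast Nat.pos_of_ne_zero (NeZero.ne M)
  have haM : (A.card : ℝ) ≤ M := by
    have h := A.card_le_univ
    rw [ZMod.card] at h
    exact_mod_cast h
  set Γ : Finset (ZMod M) := univ.filter (fun ξ => (A.card : ℝ) ^ 3 ≤ F2 A ξ * M) with hΓ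
  have h0 : (0 : ZMod M) ∈ Γ := by
    rw [hΓ, mem_filter]
    refine ⟨mem_univ _, ?_⟩
    rw [F2_zero, pow_succ]
    exact mul_le_mul_of_nonneg_left haM (by positivity)
  have hpar := parseval A
  refine ⟨Γ, ?_, ?_⟩
  · have h1 : (Γ.card : ℝ) * (A.card : ℝ) ^ 3 ≤ (M : ℝ) * (M * A.card) := by
      calc (Γ.card : ℝ) * (A.card : ℝ) ^ 3 = ∑ _ξ ∈ Γ, (A.card : ℝ) ^ 3 := by
            rw [sum_const, nsmul_eq_mul]
        _ ≤ ∑ ξ ∈ Γ, F2 A ξ * M := sum_le_sum (fun ξ hξ => (mem_filter.mp hξ).2)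
        _ ≤ ∑ ξ, F2 A ξ * M := sum_le_sum_of_subset_of_nonneg (subset_univ _)
            (fun ξ _ _ => mul_nonneg (F2_nonneg A ξ) hM.le)
        _ = (M : ℝ) * (M * A.card) := by rw [← sum_mul, hpar]; ring
    have h2 : (Γ.card : ℝ) * (A.card : ℝ) ^ 2 ≤ (M : ℝ) ^ 2 := by
      have h3 : ((Γ.card : ℝ) * (A.card : ℝ) ^ 2) * A.card ≤ (M : ℝ) ^ 2 * A.card := by
        calc ((Γ.card : ℝ) * (A.card : ℝ) ^ 2) * A.card = (Γ.card : ℝ) * (A.card : ℝ) ^ 3 := by ring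
          _ ≤ (M : ℝ) * (M * A.card) := h1
          _ = (M : ℝ) ^ 2 * A.card := by ring
      exact le_of_mul_le_mul_right h3 ha
    exact_mod_cast h2
  · intro x hx
    have hfour := fourth A x
    have hsplit : ∑ ξ, F2 A ξ ^ 2 * cosv (ξ * x)
        = ∑ ξ ∈ Γ, F2 A ξ ^ 2 * cosv (ξ * x) + ∑ ξ ∈ Γᶜ, F2 A ξ ^ 2 * cosv (ξ * x) :=
      (sum_add_sum_compl Γ _).symm
    have hA1 : (A.card : ℝ) ^ 4 ≤ ∑ ξ ∈ Γ, F2 A ξ ^ 2 * cosv (ξ * x) := by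
      have h1 := single_le_sum (f := fun ξ => F2 A ξ ^ 2 * cosv (ξ * x))
        (fun ξ hξ => mul_nonneg (sq_nonneg _) (cosv_nonneg (hx ξ hξ))) h0
      refine le_trans (le_of_eq ?_) h1
      show (A.card : ℝ) ^ 4 = F2 A 0 ^ 2 * cosv (0 * x)
      rw [F2_zero, zero_mul, cosv_zero]
      ring
    have hB1 : -(∑ ξ ∈ Γᶜ, F2 A ξ ^ 2) ≤ ∑ ξ ∈ Γᶜ, F2 A ξ ^ 2 * cosv (ξ * x) := by
      rw [← sum_neg_distrib]
      refine sum_le_sum (fun ξ _ => ?_)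
      nlinarith [cosv_ge (ξ * x), sq_nonneg (F2 A ξ)]
    have hB2 : (M : ℝ) * ∑ ξ ∈ Γᶜ, F2 A ξ ^ 2 ≤ (A.card : ℝ) ^ 3 * ∑ ξ ∈ Γᶜ, F2 A ξ := by
      rw [mul_sum, mul_sum]
      refine sum_le_sum (fun ξ hξ => ?_)
      have h1 : F2 A ξ * M < (A.card : ℝ) ^ 3 := by
        by_contra hcon
        exact (mem_compl.mp hξ) (mem_filter.mpr ⟨mem_univ _, not_lt.mp hcon⟩)
      have h2 := F2_nonneg A ξ
      nlinarith
    have hB3 : ∑ ξ ∈ Γᶜ, F2 A ξ ≤ (M : ℝ) * A.card - (A.card : ℝ) ^ 2 := by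
      have h1 : ∑ ξ ∈ Γ, F2 A ξ + ∑ ξ ∈ Γᶜ, F2 A ξ = (M : ℝ) * A.card := by
        rw [sum_add_sum_compl, hpar]
      have h2 := single_le_sum (f := fun ξ => F2 A ξ) (fun ξ _ => F2_nonneg A ξ) h0
      have h3 : F2 A 0 = (A.card : ℝ) ^ 2 := F2_zero A
      simp only [h3] at h2
      linarith
    have hpos : 0 < (M : ℝ) * ((M : ℝ) * rep4 A x) := by
      have h1 : (A.card : ℝ) ^ 4 - ∑ ξ ∈ Γᶜ, F2 A ξ ^ 2 ≤ (M : ℝ) * rep4 A x := by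
        rw [hfour, hsplit]; linarith
      have h2 : (M : ℝ) * ((A.card : ℝ) ^ 4 - ∑ ξ ∈ Γᶜ, F2 A ξ ^ 2) ≤ (M : ℝ) * ((M : ℝ) * rep4 A x) :=
        mul_le_mul_of_nonneg_left h1 hM.le
      have h3 : (A.card : ℝ) ^ 3 * ∑ ξ ∈ Γᶜ, F2 A ξ
          ≤ (A.card : ℝ) ^ 3 * ((M : ℝ) * A.card - (A.card : ℝ) ^ 2) :=
        mul_le_mul_of_nonneg_left hB3 (by positivity)
      have h5 : 0 < (A.card : ℝ) ^ 5 := by positivity
      have h4 : (M : ℝ) * ((A.card : ℝ) ^ 4 - ∑ ξ ∈ Γᶜ, F2 A ξ ^ 2) ≥ (A.card : ℝ) ^ 5 := by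
        have e1 : (M : ℝ) * ((A.card : ℝ) ^ 4 - ∑ ξ ∈ Γᶜ, F2 A ξ ^ 2)
            = (M : ℝ) * (A.card : ℝ) ^ 4 - (M : ℝ) * ∑ ξ ∈ Γᶜ, F2 A ξ ^ 2 := by ring
        have e2 : (A.card : ℝ) ^ 3 * ((M : ℝ) * A.card - (A.card : ℝ) ^ 2)
            = (M : ℝ) * (A.card : ℝ) ^ 4 - (A.card : ℝ) ^ 5 := by ring
        rw [e1]
        linarith
      linarith
    have hrep : 0 < rep4 A x := by
      rcases Nat.eq_zero_or_pos (rep4 A x) with h | h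
      · rw [h] at hpos
        simp at hpos
      · exact h
    rw [rep4, card_pos] at hrep
    obtain ⟨t, ht⟩ := hrep
    simp only [mem_filter, mem_product] at ht
    obtain ⟨⟨⟨h1, h2⟩, h3, h4⟩, h5⟩ := ht
    exact ⟨_, h1, _, h2, _, h3, _, h4, h5.symm⟩

/-- the same in terms of boxes, with a prescribed number of frequencies -/
theorem bogo_box {M : ℕ} [NeZero M] (A : Finset (ZMod M)) (hA : A.Nonempty) (r : ℕ)
    (hr : M ^ 2 < (r + 1) * A.card ^ 2) :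
    ∃ ξ : Fin r → ℤ, ∀ n ∈ Box M ξ (1 / 4),
      ∃ a ∈ A, ∃ b ∈ A, ∃ c ∈ A, ∃ d ∈ A, ((n 0 : ℤ) : ZMod M) = a + b - c - d := by
  classical
  obtain ⟨Γ, hcard, hΓ⟩ := bogolyubov A hA
  have hM : (0 : ℝ) < M := by exact_mod_cast Nat.pos_of_ne_zero (NeZero.ne M)
  have hcr : Γ.card ≤ r := by
    by_contra hcon
    push Not at hcon
    have h1 : (r + 1) * A.card ^ 2 ≤ Γ.card * A.card ^ 2 := Nat.mul_le_mul_right _ hcon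
    omega
  refine ⟨fun i => if h : (i : ℕ) < Γ.card then (((Γ.equivFin.symm ⟨i, h⟩ : Γ) : ZMod M).val : ℤ) else 0,
    fun n hn => hΓ _ (fun γ hγ => ?_)⟩
  set j : Fin Γ.card := Γ.equivFin ⟨γ, hγ⟩ with hj
  have hjr : (j : ℕ) < r := lt_of_lt_of_le j.2 hcr
  have h1 := hn (Fin.succ ⟨j, hjr⟩)
  rw [lf_succ_idx] at h1
  have h2 : (j : ℕ) < Γ.card := j.2
  simp only [h2, dif_pos] at h1
  have h3 : Γ.equivFin.symm ⟨(j : ℕ), h2⟩ = ⟨γ, hγ⟩ := by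
    rw [Equiv.symm_apply_eq]
  rw [h3] at h1
  set m : ℤ := n (Fin.succ ⟨(j : ℕ), hjr⟩) with hm
  set y : ℤ := (γ.val : ℤ) * n 0 - M * m with hy
  have hyz : (((γ * ((n 0 : ℤ) : ZMod M)).valMinAbs : ℤ) : ZMod M) = (y : ZMod M) := by
    rw [ZMod.coe_valMinAbs, hy]
    push_cast
    rw [ZMod.natCast_zmod_val, ZMod.natCast_self, zero_mul, sub_zero]
  have hmin := ZMod.natAbs_min_of_le_div_two M _ y hyz (ZMod.natAbs_valMinAbs_le _)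
  have hmin' : |(γ * ((n 0 : ℤ) : ZMod M)).valMinAbs| ≤ |y| := by
    rw [Int.abs_eq_natAbs, Int.abs_eq_natAbs]
    exact_mod_cast hmin
  have hy4 : 4 * |y| ≤ M := by
    have h4 : |(y : ℝ)| ≤ M / 4 := by
      have e : (y : ℝ) = M * ((n 0 : ℝ) * ((γ.val : ℤ) : ℝ) / M - m) := by
        rw [hy]
        push_cast
        field_simp
      rw [e, abs_mul, abs_of_pos hM]
      calc (M : ℝ) * |(n 0 : ℝ) * ((γ.val : ℤ) : ℝ) / M - m| ≤ M * (1 / 4) :=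
            mul_le_mul_of_nonneg_left h1 hM.le
        _ = M / 4 := by ring
    have h5 : (4 : ℝ) * |(y : ℝ)| ≤ M := by linarith
    exact_mod_cast h5
  linarith

end Pool.Agent.MPac5134.FR
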