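import Pool.Agent.Lib.MP_ac5134_an.FR.Defs

/-!
# FR2-BohrLow: many points in a small box

Pigeonhole: for `x ∈ {0, …, M - 1}` let `cls x : Fin (r + 1) → Fin K`, `cls x 0 = ⌊K x / M⌋`,
`cls x (i+1) = ⌊K ((x ξ_i) % M) / M⌋` (integer remainder in `[0, M)`).  Some class `C` has `M ≤ #C K^(r+1)`
(`Finset.exists_le_card_fiber_of_mul_le_card_of_maps_to` or: `M = ∑ classes ≤ K^(r+1) max`).
Fix `x₀ ∈ C`; `T` = image of `C` under `x ↦ n`, `n 0 = x - x₀`, `n (i+1) = (x ξ_i) / M - (x₀ ξ_i) / M` (integer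
division), so `l_{i+1}(n) = ((x ξ_i) % M - (x₀ ξ_i) % M) / M ∈ [-1/K, 1/K]`.  Injective, and
`M ∣ n 0 - n' 0 = x - x'`, `|x - x'| < M` gives `x = x'`.
-/

open Finset

namespace Pool.Agent.MPac5134.FR

/-- the coordinate whose class is recorded: `x` itself, or the residue of `x ξ_i` -/
private def rs {r : ℕ} (M : ℕ) (ξ : Fin r → ℤ) (x : ℕ) : Fin (r + 1) → ℤ :=
  Fin.cons (x : ℤ) (fun i => ((x : ℤ) * ξ i) % M)

private theorem rs_nonneg {r M : ℕ} (hM : 1 ≤ M) (ξ : Fin r → ℤ) (x : ℕ) (i : Fin (r + 1)) :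
    0 ≤ rs M ξ x i := by
  refine Fin.cases ?_ (fun i => ?_) i
  · simp [rs]
  · simp only [rs, Fin.cons_succ]
    exact Int.emod_nonneg _ (by exact_mod_cast (by omega : M ≠ 0))

private theorem rs_lt {r M : ℕ} (hM : 1 ≤ M) (ξ : Fin r → ℤ) {x : ℕ} (hx : x < M) (i : Fin (r + 1)) :
    rs M ξ x i < M := by
  refine Fin.cases ?_ (fun i => ?_) i
  · simp only [rs, Fin.cons_zero]
    exact_mod_cast hx
  · simp only [rs, Fin.cons_succ]
    exact Int.emod_lt_of_pos _ (by exact_mod_cast hM)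

/-- the lattice vector of `x` relative to `x₀` -/
private def vec {r : ℕ} (M : ℕ) (ξ : Fin r → ℤ) (x₀ x : ℕ) : Fin (r + 1) → ℤ :=
  Fin.cons ((x : ℤ) - x₀) (fun i => ((x : ℤ) * ξ i) / M - ((x₀ : ℤ) * ξ i) / M)

private theorem lf_vec {r M : ℕ} (hM : 1 ≤ M) (ξ : Fin r → ℤ) (x₀ x : ℕ) (i : Fin (r + 1)) :
    lf M ξ (vec M ξ x₀ x) i = ((rs M ξ x i : ℝ) - rs M ξ x₀ i) / M := by
  have hM' : (M : ℝ) ≠ 0 := by
    have : (1 : ℝ) ≤ M := by exact_mod_cast hM
    linarith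
  refine Fin.cases ?_ (fun i => ?_) i
  · simp only [lf_zero_idx, vec, rs, Fin.cons_zero]
    push_cast
    ring
  · simp only [lf_succ_idx, vec, rs, Fin.cons_zero, Fin.cons_succ]
    have e1 : ((x : ℤ) * ξ i) % M = (x : ℤ) * ξ i - M * (((x : ℤ) * ξ i) / M) := Int.emod_def _ _
    have e2 : ((x₀ : ℤ) * ξ i) % M = (x₀ : ℤ) * ξ i - M * (((x₀ : ℤ) * ξ i) / M) := Int.emod_def _ _
    rw [e1, e2]
    push_cast
    field_simp
    ring

/-- two numbers of `[0, M)` with the same `⌊K y / M⌋` differ by at most `M / K` -/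
private theorem close {M K : ℕ} (hM : 1 ≤ M) (hK : 1 ≤ K) {y z : ℤ}
    (h : (K * y) / (M : ℤ) = (K * z) / (M : ℤ)) : |((y : ℝ) - z) / M| ≤ 1 / K := by
  have hM' : (0 : ℤ) < M := by exact_mod_cast hM
  have hMr : (0 : ℝ) < M := by exact_mod_cast hM
  have hKr : (0 : ℝ) < K := by exact_mod_cast hK
  have e1 := Int.emod_add_mul_ediv ((K : ℤ) * y) M
  have e2 := Int.emod_add_mul_ediv ((K : ℤ) * z) M
  have a1 := Int.emod_nonneg ((K : ℤ) * y) hM'.ne'
  have a2 := Int.emod_lt_of_pos ((K : ℤ) * y) hM'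
  have a3 := Int.emod_nonneg ((K : ℤ) * z) hM'.ne'
  have a4 := Int.emod_lt_of_pos ((K : ℤ) * z) hM'
  have h1 : |(K : ℤ) * y - K * z| ≤ M := by
    rw [abs_le]
    constructor <;> nlinarith
  have h2 : |(K : ℝ) * y - K * z| ≤ M := by exact_mod_cast h1
  rw [abs_div, abs_of_pos hMr, div_le_div_iff₀ hMr hKr, one_mul]
  calc |(y : ℝ) - z| * K = |(K : ℝ) * y - K * z| := by
        rw [← mul_sub, abs_mul, abs_of_pos hKr, mul_comm]
    _ ≤ M := h2

theorem bohr_lower {r M K : ℕ} (hM : 1 ≤ M) (hK : 1 ≤ K) (ξ : Fin r → ℤ) :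
    ∃ T : Finset (Fin (r + 1) → ℤ), T.Nonempty ∧ (∀ n ∈ T, n ∈ Box M ξ (1 / K)) ∧
      M ≤ T.card * K ^ (r + 1) ∧
      ∀ n ∈ T, ∀ n' ∈ T, (M : ℤ) ∣ n 0 - n' 0 → n = n' := by
  classical
  have hMz : (0 : ℤ) < M := by exact_mod_cast hM
  have hKz : (0 : ℤ) < K := by exact_mod_cast hK
  -- classes
  let cls : ℕ → (Fin (r + 1) → ℤ) := fun x i => (K * rs M ξ x i) / (M : ℤ)
  let Cl : Finset (Fin (r + 1) → ℤ) := Fintype.piFinset (fun _ => Finset.Ico (0 : ℤ) K)
  have hmaps : ∀ x ∈ range M, cls x ∈ Cl := by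
    intro x hx
    rw [Fintype.mem_piFinset]
    intro i
    rw [Finset.mem_Ico]
    have h1 := rs_nonneg hM ξ x i
    have h2 := rs_lt hM ξ (mem_range.mp hx) i
    refine ⟨Int.ediv_nonneg (mul_nonneg hKz.le h1) hMz.le, ?_⟩
    apply Int.ediv_lt_of_lt_mul hMz
    nlinarith
  have hClcard : Cl.card = K ^ (r + 1) := by
    rw [Fintype.card_piFinset]
    simp
  have hex : ∃ c ∈ Cl, M ≤ ((range M).filter (fun x => cls x = c)).card * K ^ (r + 1) := by
    by_contra hcon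
    push Not at hcon
    have h1 : M * K ^ (r + 1) < M * K ^ (r + 1) := by
      calc M * K ^ (r + 1) = (∑ c ∈ Cl, ((range M).filter (fun x => cls x = c)).card) * K ^ (r + 1) := by
            rw [← card_eq_sum_card_fiberwise hmaps, card_range]
        _ = ∑ c ∈ Cl, ((range M).filter (fun x => cls x = c)).card * K ^ (r + 1) := by rw [sum_mul]
        _ < ∑ _c ∈ Cl, M := by
            refine sum_lt_sum_of_nonempty ?_ hcon
            exact ⟨_, hmaps 0 (mem_range.mpr hM)⟩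
        _ = M * K ^ (r + 1) := by rw [sum_const, smul_eq_mul, hClcard, mul_comm]
    exact lt_irrefl _ h1
  obtain ⟨c, -, hc⟩ := hex
  set C := (range M).filter (fun x => cls x = c) with hC
  have hCne : C.Nonempty := by
    rw [nonempty_iff_ne_empty]
    intro h
    rw [h, card_empty, zero_mul] at hc
    omega
  obtain ⟨x₀, hx₀⟩ := hCne
  have hx₀c : cls x₀ = c := (mem_filter.mp hx₀).2
  have hinj : Set.InjOn (vec M ξ x₀) C := by
    intro x _ x' _ h
    have h0 := congrFun h 0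
    simp only [vec, Fin.cons_zero] at h0
    have : (x : ℤ) = x' := by linarith
    exact_mod_cast this
  refine ⟨C.image (vec M ξ x₀), ⟨_, mem_image_of_mem _ hx₀⟩, ?_, ?_, ?_⟩
  · intro n hn i
    obtain ⟨x, hx, rfl⟩ := mem_image.mp hn
    rw [lf_vec hM]
    have hxc : cls x = c := (mem_filter.mp hx).2
    exact close hM hK (congrFun (hxc.trans hx₀c.symm) i)
  · rw [card_image_of_injOn hinj]
    exact hc
  · intro n hn n' hn' hd
    obtain ⟨x, hx, rfl⟩ := mem_image.mp hn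
    obtain ⟨x', hx', rfl⟩ := mem_image.mp hn'
    have h1 := mem_range.mp (mem_filter.mp hx).1
    have h2 := mem_range.mp (mem_filter.mp hx').1
    simp only [vec, Fin.cons_zero] at hd
    have h3 : (M : ℤ) ∣ (x : ℤ) - x' := by
      have : (x : ℤ) - x₀ - (x' - x₀) = x - x' := by ring
      rwa [this] at hd
    have h4 : (x : ℤ) - x' = 0 := by
      apply Int.eq_zero_of_abs_lt_dvd h3
      rw [abs_lt]
      constructor <;> omega
    have h5 : x = x' := by
      have : (x : ℤ) = x' := by linarith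
      exact_mod_cast this
    rw [h5]

end Pool.Agent.MPac5134.FR
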