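import Pool.Agent.Lib.MP_ac5134_an.FR.Defs

/-!
# FR2-BoxCard: an upper bound for the number of points of a box

`n ∈ Box M ξ t`, `t ≥ 1`: `|n 0| ≤ t M`, so `n 0 ∈ Icc (-⌊t M⌋) ⌊t M⌋`, at most `2 t M + 1 ≤ 4 t M` values;
`m_{i+1} := n (i+1) - ⌊n₀ ξ_i / M⌋` lies in `Icc (-⌊t⌋ - 1) (⌊t⌋ + 1)`: better, `-t ≤ n(i+1) - n₀ξ_i/M ≤ t` gives
`-t ≤ m_{i+1} ≤ t + 1`, at most `2 t + 2 ≤ 4 t` values.  `n ↦ (n 0, m)` is injective:
`T.card ≤ ∏ (4 t M) (4 t)^r` (`Fintype.card_piFinset` or `Fintype.piFinset`, `Finset.card_le_card_of_injOn`).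
`finite_box`: the box is finite (every finite subset has bounded cardinality: `Set.finite_of_forall...`, or it injects
into a finite set directly).
-/

open Finset

namespace Pool.Agent.MPac5134.FR

/-- the coordinates `(n 0, m)` -/
private noncomputable def bcMap {r : ℕ} (M : ℕ) (ξ : Fin r → ℤ) (n : Fin (r + 1) → ℤ) :
    Fin (r + 1) → ℤ :=
  Fin.cons (n 0) (fun i => n i.succ - ⌊(n 0 : ℝ) * ξ i / M⌋)

private theorem bcMap_inj {r : ℕ} (M : ℕ) (ξ : Fin r → ℤ) :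
    Function.Injective (bcMap M ξ) := by
  intro n n' h
  have h0 : n 0 = n' 0 := by
    have := congrFun h 0
    simpa [bcMap] using this
  funext i
  refine Fin.cases h0 (fun i => ?_) i
  have := congrFun h i.succ
  simp only [bcMap, Fin.cons_succ, h0] at this
  omega

private theorem bcMap_mem {r M : ℕ} (hM : 1 ≤ M) (ξ : Fin r → ℤ) {t : ℝ}
    {n : Fin (r + 1) → ℤ} (hn : n ∈ Box M ξ t) :
    bcMap M ξ n ∈ Fintype.piFinset (Fin.cons (Finset.Icc (-⌊t * M⌋) ⌊t * M⌋)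
      (fun _ : Fin r => Finset.Icc (-⌊t⌋) (⌊t⌋ + 1)) : Fin (r + 1) → Finset ℤ) := by
  have hM' : (0 : ℝ) < M := by exact_mod_cast hM
  rw [Fintype.mem_piFinset]
  intro i
  refine Fin.cases ?_ (fun i => ?_) i
  · have h := hn 0
    rw [lf_zero_idx, abs_le] at h
    obtain ⟨h1, h2⟩ := h
    rw [div_le_iff₀ hM'] at h2
    rw [le_div_iff₀ hM'] at h1
    simp only [bcMap, Fin.cons_zero, Finset.mem_Icc]
    constructor
    · have : -(n 0) ≤ ⌊t * M⌋ := by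
        rw [Int.le_floor]
        push_cast
        linarith
      omega
    · rw [Int.le_floor]
      exact h2
  · have h := hn i.succ
    rw [lf_succ_idx, abs_le] at h
    obtain ⟨h1, h2⟩ := h
    have hf1 := Int.floor_le ((n 0 : ℝ) * ξ i / M)
    have hf2 := Int.lt_floor_add_one ((n 0 : ℝ) * ξ i / M)
    simp only [bcMap, Fin.cons_succ, Finset.mem_Icc]
    constructor
    · have : -(n i.succ - ⌊(n 0 : ℝ) * ξ i / M⌋) ≤ ⌊t⌋ := by
        rw [Int.le_floor]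
        push_cast
        linarith
      omega
    · have : n i.succ - ⌊(n 0 : ℝ) * ξ i / M⌋ - 1 ≤ ⌊t⌋ := by
        rw [Int.le_floor]
        push_cast
        linarith
      omega

theorem box_card_le {r M : ℕ} (hM : 1 ≤ M) (ξ : Fin r → ℤ) {t : ℝ} (ht : 1 ≤ t)
    (T : Finset (Fin (r + 1) → ℤ)) (hT : ∀ n ∈ T, n ∈ Box M ξ t) :
    (T.card : ℝ) ≤ (4 * t) ^ (r + 1) * M := by
  have hM' : (1 : ℝ) ≤ M := by exact_mod_cast hM
  have h1 : T.card ≤ (Fintype.piFinset (Fin.cons (Finset.Icc (-⌊t * M⌋) ⌊t * M⌋)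
      (fun _ : Fin r => Finset.Icc (-⌊t⌋) (⌊t⌋ + 1)) : Fin (r + 1) → Finset ℤ)).card :=
    Finset.card_le_card_of_injOn (bcMap M ξ)
      (fun n hn => bcMap_mem hM ξ (hT n hn)) ((bcMap_inj M ξ).injOn)
  rw [Fintype.card_piFinset, Fin.prod_univ_succ] at h1
  simp only [Fin.cons_zero, Fin.cons_succ, Finset.prod_const, Finset.card_univ,
    Fintype.card_fin, Int.card_Icc] at h1
  have hA : ((⌊t * M⌋ + 1 - -⌊t * M⌋).toNat : ℝ) ≤ 4 * t * M := by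
    have hf := Int.floor_le (t * M)
    have hp : (0 : ℤ) ≤ ⌊t * M⌋ := Int.floor_nonneg.mpr (by positivity)
    have e : (((⌊t * M⌋ + 1 - -⌊t * M⌋).toNat : ℤ) : ℝ) = 2 * (⌊t * M⌋ : ℝ) + 1 := by
      rw [Int.toNat_of_nonneg (by omega)]
      push_cast
      ring
    have e' : ((⌊t * M⌋ + 1 - -⌊t * M⌋).toNat : ℝ) = 2 * (⌊t * M⌋ : ℝ) + 1 := by
      exact_mod_cast e
    rw [e']
    nlinarith
  have hB : ((⌊t⌋ + 1 + 1 - -⌊t⌋).toNat : ℝ) ≤ 4 * t := by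
    have hf := Int.floor_le t
    have hp : (0 : ℤ) ≤ ⌊t⌋ := Int.floor_nonneg.mpr (by linarith)
    have e : (((⌊t⌋ + 1 + 1 - -⌊t⌋).toNat : ℤ) : ℝ) = 2 * (⌊t⌋ : ℝ) + 2 := by
      rw [Int.toNat_of_nonneg (by omega)]
      push_cast
      ring
    have e' : ((⌊t⌋ + 1 + 1 - -⌊t⌋).toNat : ℝ) = 2 * (⌊t⌋ : ℝ) + 2 := by
      exact_mod_cast e
    rw [e']
    linarith
  calc (T.card : ℝ) ≤ (((⌊t * M⌋ + 1 - -⌊t * M⌋).toNat *
        (⌊t⌋ + 1 + 1 - -⌊t⌋).toNat ^ r : ℕ) : ℝ) := by exact_mod_cast h1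
    _ = ((⌊t * M⌋ + 1 - -⌊t * M⌋).toNat : ℝ) *
        ((⌊t⌋ + 1 + 1 - -⌊t⌋).toNat : ℝ) ^ r := by push_cast; ring
    _ ≤ (4 * t * M) * (4 * t) ^ r := by
        apply mul_le_mul hA _ (by positivity) (by positivity)
        exact pow_le_pow_left₀ (by positivity) hB r
    _ = (4 * t) ^ (r + 1) * M := by ring

theorem finite_box {r M : ℕ} (hM : 1 ≤ M) (ξ : Fin r → ℤ) (t : ℝ) : (Box M ξ t).Finite := by
  have hsub : Box M ξ t ⊆ (bcMap M ξ) ⁻¹'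
      ((Fintype.piFinset (Fin.cons (Finset.Icc (-⌊t * M⌋) ⌊t * M⌋)
      (fun _ : Fin r => Finset.Icc (-⌊t⌋) (⌊t⌋ + 1)) : Fin (r + 1) → Finset ℤ) :
        Finset (Fin (r + 1) → ℤ)) : Set (Fin (r + 1) → ℤ)) := by
    intro n hn
    exact bcMap_mem hM ξ hn
  exact (Set.Finite.preimage ((bcMap_inj M ξ).injOn) (Finset.finite_toSet _)).subset hsub

end Pool.Agent.MPac5134.FR
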