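import Pool.Agent.Lib.MP_ac5134_an.FR.LocSum
import Pool.Agent.Lib.MP_ac5134_an.FR.BoxCard

/-!
# FR2-Ext: extension of a locally additive map to a linear map

`B` = the finite set `Box M ξ (1 / (4 (r+1)))` (`finite_box`), closed under `n ↦ -n`, `θ (-n) = - θ n` on it (`loc_neg`).
* `int_rel`: if `c : B → ℤ`, `∑ c n • n = 0` then `∑ c n • θ n = 0`: apply `loc_sum` to the index set
  `{(n, k) : n ∈ B, k < |c n|}` (`Finset.sigma`, `Finset.range (c n).natAbs`) with `u (n, k) = sign (c n) • n`.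
* `rat_rel`: the same with `c : B → ℚ` and values in `ℚ`: multiply by a common denominator
  (`∏ den`, or `IsLocalization.exist_integer_multiples_of_finset`).
* linear algebra over `ℚ`: `f : (B →₀ ℚ) → ℚ^{r+1}`, `g : (B →₀ ℚ) → (σ → ℚ)`, `ker f ≤ ker g`; so there is a linear
  `h` with `h ∘ f = g` (`LinearMap.exists_extend` on `range f`, or `LinearMap.exists_leftInverse...`; e.g. choose a linear
  right inverse `s` of `f.rangeRestrict`, `h₀ = g ∘ s` on `range f`, extended to the whole space).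
* `Ψ i j = ((h (Pi.single j 1)) i : ℝ)`.
-/

open Finset Matrix

namespace Pool.Agent.MPac5134.FR

open Pool.Agent.MPac5134.Lat

private theorem ext_int_rel {r M : ℕ} {ξ : Fin r → ℤ} {σ : Type}
    {θ : (Fin (r + 1) → ℤ) → (σ → ℤ)} (hθ : LocAdd M ξ θ) (B : Finset (Fin (r + 1) → ℤ))
    (hB : ∀ n ∈ B, n ∈ Box M ξ (1 / (4 * (r + 1)))) (c : (Fin (r + 1) → ℤ) → ℤ)
    (h0 : ∑ n ∈ B, c n • n = 0) : ∑ n ∈ B, c n • θ n = 0 := by
  classical
  have hle : (1 : ℝ) / (4 * (r + 1)) ≤ 1 / 4 := by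
    have hr : (0 : ℝ) ≤ r := Nat.cast_nonneg r
    apply one_div_le_one_div_of_le (by norm_num)
    linarith
  have hpos : (0 : ℝ) ≤ 1 / (4 * (r + 1)) := by positivity
  set s : Finset (Σ _ : (Fin (r + 1) → ℤ), ℕ) := B.sigma fun n => Finset.range (c n).natAbs with hs
  set u : (Σ _ : (Fin (r + 1) → ℤ), ℕ) → (Fin (r + 1) → ℤ) := fun t => (c t.1).sign • t.1 with hu
  have hsum : ∀ {H : Type} [AddCommGroup H] (F : (Fin (r + 1) → ℤ) → H),
      ∑ t ∈ s, (c t.1).sign • F t.1 = ∑ n ∈ B, c n • F n := by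
    intro H _ F
    rw [hs, Finset.sum_sigma]
    refine Finset.sum_congr rfl fun n _ => ?_
    change ∑ _k ∈ Finset.range (c n).natAbs, (c n).sign • F n = c n • F n
    rw [Finset.sum_const, Finset.card_range, ← natCast_zsmul, smul_smul]
    congr 1
    rw [Int.natCast_natAbs, mul_comm, Int.sign_mul_abs]
  have hmem : ∀ t ∈ s, u t ∈ Box M ξ (1 / (4 * (r + 1))) := by
    intro t ht
    have h1 : t.1 ∈ B := (Finset.mem_sigma.1 ht).1
    rcases lt_trichotomy (c t.1) 0 with h | h | h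
    · simp only [hu, Int.sign_eq_neg_one_of_neg h, neg_smul, one_smul]
      exact Box.neg (hB _ h1)
    · simp only [hu, h, Int.sign_zero, zero_smul]
      exact Box.zero hpos
    · simp only [hu, Int.sign_eq_one_of_pos h, one_smul]
      exact hB _ h1
  have h1 : ∑ t ∈ s, u t = 0 := by
    have := hsum (H := Fin (r + 1) → ℤ) (fun n => n)
    rw [h0] at this
    exact this
  have h2 := loc_sum hθ s u hmem h1
  have h3 : ∀ t ∈ s, θ (u t) = (c t.1).sign • θ t.1 := by
    intro t ht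
    have h1 : t.1 ∈ B := (Finset.mem_sigma.1 ht).1
    rcases lt_trichotomy (c t.1) 0 with h | h | h
    · simp only [hu, Int.sign_eq_neg_one_of_neg h, neg_smul, one_smul]
      exact loc_neg hθ (Box.mono hle (hB _ h1))
    · simp only [hu, h, Int.sign_zero, zero_smul]
      exact loc_zero hθ
    · simp only [hu, Int.sign_eq_one_of_pos h, one_smul]
  rw [Finset.sum_congr rfl h3] at h2
  rw [← hsum θ]
  exact h2

private theorem ext_rat_rel {r M : ℕ} {ξ : Fin r → ℤ} {σ : Type}
    {θ : (Fin (r + 1) → ℤ) → (σ → ℤ)} (hθ : LocAdd M ξ θ) (B : Finset (Fin (r + 1) → ℤ))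
    (hB : ∀ n ∈ B, n ∈ Box M ξ (1 / (4 * (r + 1)))) (c : (Fin (r + 1) → ℤ) → ℚ)
    (h0 : ∀ i, ∑ n ∈ B, c n * (n i : ℚ) = 0) (j : σ) : ∑ n ∈ B, c n * (θ n j : ℚ) = 0 := by
  classical
  set N : ℕ := ∏ n ∈ B, (c n).den with hN
  have hN0 : (N : ℚ) ≠ 0 := by
    rw [hN]
    push_cast
    exact Finset.prod_ne_zero_iff.2 fun n _ => by exact_mod_cast (c n).den_nz
  have hC : ∀ n : Fin (r + 1) → ℤ, ∃ z : ℤ, n ∈ B → c n * N = z := by
    intro n
    by_cases hn : n ∈ B
    · refine ⟨(c n).num * ∏ m ∈ B.erase n, ((c m).den : ℤ), fun _ => ?_⟩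
      rw [hN, ← Finset.mul_prod_erase B _ hn]
      push_cast
      rw [← mul_assoc, Rat.mul_den_eq_num]
    · exact ⟨0, fun h => absurd h hn⟩
  choose C hC using hC
  have h1 : ∑ n ∈ B, C n • n = 0 := by
    funext i
    rw [Finset.sum_apply, Pi.zero_apply]
    have h2 : ((∑ n ∈ B, (C n • n) i : ℤ) : ℚ) = 0 := by
      push_cast
      calc ∑ n ∈ B, (((C n • n) i : ℤ) : ℚ) = ∑ n ∈ B, N * (c n * (n i : ℚ)) := by
            refine Finset.sum_congr rfl fun n hn => ?_
            rw [Pi.smul_apply, smul_eq_mul]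
            push_cast
            rw [← hC n hn]
            ring
        _ = 0 := by rw [← Finset.mul_sum, h0 i, mul_zero]
    exact_mod_cast h2
  have h3 := congrFun (ext_int_rel hθ B hB C h1) j
  rw [Finset.sum_apply, Pi.zero_apply] at h3
  have h4 : (N : ℚ) * ∑ n ∈ B, c n * (θ n j : ℚ) = 0 := by
    rw [Finset.mul_sum]
    calc ∑ n ∈ B, (N : ℚ) * (c n * (θ n j : ℚ)) = ((∑ n ∈ B, (C n • θ n) j : ℤ) : ℚ) := by
          push_cast
          refine Finset.sum_congr rfl fun n hn => ?_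
          rw [Pi.smul_apply, smul_eq_mul]
          push_cast
          rw [← hC n hn]
          ring
      _ = 0 := by rw [h3, Int.cast_zero]
  exact (mul_eq_zero.1 h4).resolve_left hN0

theorem extend {r M : ℕ} (hM : 1 ≤ M) {ξ : Fin r → ℤ} {σ : Type} [Fintype σ]
    {θ : (Fin (r + 1) → ℤ) → (σ → ℤ)} (hθ : LocAdd M ξ θ) :
    ∃ Ψ : Matrix σ (Fin (r + 1)) ℝ, ∀ n ∈ Box M ξ (1 / (4 * (r + 1))), ∀ i,
      (Ψ *ᵥ rv n) i = (θ n i : ℝ) := by
  classical
  set B : Finset (Fin (r + 1) → ℤ) := (finite_box hM ξ (1 / (4 * (r + 1)))).toFinset with hBdef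
  have hB : ∀ n ∈ B, n ∈ Box M ξ (1 / (4 * (r + 1))) := by
    intro n hn
    exact (Set.Finite.mem_toFinset _).1 hn
  let f : (B → ℚ) →ₗ[ℚ] (Fin (r + 1) → ℚ) :=
    { toFun := fun c i => ∑ n : B, c n * (n.1 i : ℚ)
      map_add' := by
        intro a b
        funext i
        simp only [Pi.add_apply, add_mul, Finset.sum_add_distrib]
      map_smul' := by
        intro a b
        funext i
        simp only [Pi.smul_apply, smul_eq_mul, RingHom.id_apply, Finset.mul_sum, mul_assoc] }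
  let g : (B → ℚ) →ₗ[ℚ] (σ → ℚ) :=
    { toFun := fun c i => ∑ n : B, c n * (θ n.1 i : ℚ)
      map_add' := by
        intro a b
        funext i
        simp only [Pi.add_apply, add_mul, Finset.sum_add_distrib]
      map_smul' := by
        intro a b
        funext i
        simp only [Pi.smul_apply, smul_eq_mul, RingHom.id_apply, Finset.mul_sum, mul_assoc] }
  have hker : ∀ c, f c = 0 → g c = 0 := by
    intro c hc
    funext j
    have hc' : ∀ i, ∑ n : B, c n * (n.1 i : ℚ) = 0 := fun i => congrFun hc i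
    let c' : (Fin (r + 1) → ℤ) → ℚ := fun n => if h : n ∈ B then c ⟨n, h⟩ else 0
    have hcc : ∀ F : (Fin (r + 1) → ℤ) → ℚ, ∑ n ∈ B, c' n * F n = ∑ n : B, c n * F n.1 := by
      intro F
      rw [← Finset.sum_coe_sort B fun n => c' n * F n]
      refine Finset.sum_congr rfl fun n _ => ?_
      simp only [c', dif_pos n.2]
    have h1 := ext_rat_rel hθ B hB c' (fun i => by rw [hcc]; exact hc' i) j
    rw [hcc] at h1
    exact h1
  obtain ⟨s, hs⟩ := f.rangeRestrict.exists_rightInverse_of_surjective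
    (LinearMap.range_rangeRestrict f)
  obtain ⟨h, hh⟩ := LinearMap.exists_extend (g ∘ₗ s)
  have hfg : ∀ c, h (f c) = g c := by
    intro c
    have h1 : h (f c) = g (s (f.rangeRestrict c)) := by
      have := congrArg (fun q => q (f.rangeRestrict c)) hh
      simpa using this
    have h2 : f.rangeRestrict (s (f.rangeRestrict c)) = f.rangeRestrict c :=
      LinearMap.congr_fun hs (f.rangeRestrict c)
    have h3 : f (s (f.rangeRestrict c) - c) = 0 := by
      rw [map_sub]
      have := congrArg Subtype.val h2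
      simp only [LinearMap.codRestrict_apply, LinearMap.rangeRestrict] at this ⊢
      rw [this, sub_self]
    have h4 := hker _ h3
    rw [map_sub, sub_eq_zero] at h4
    rw [h1, h4]
  have hval : ∀ n ∈ B, ∀ i, h (fun j => (n j : ℚ)) i = (θ n i : ℚ) := by
    intro n hn i
    have h1 := congrFun (hfg (Pi.single ⟨n, hn⟩ 1)) i
    have h2 : f (Pi.single ⟨n, hn⟩ 1) = fun j => (n j : ℚ) := by
      funext j
      change ∑ m : B, (Pi.single (⟨n, hn⟩ : B) (1 : ℚ) : B → ℚ) m * (m.1 j : ℚ) = _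
      rw [Finset.sum_eq_single ⟨n, hn⟩]
      · simp
      · intro b _ hb
        simp [Pi.single_eq_of_ne hb]
      · intro h
        exact absurd (Finset.mem_univ _) h
    have h3 : g (Pi.single ⟨n, hn⟩ 1) i = (θ n i : ℚ) := by
      change ∑ m : B, (Pi.single (⟨n, hn⟩ : B) (1 : ℚ) : B → ℚ) m * (θ m.1 i : ℚ) = _
      rw [Finset.sum_eq_single ⟨n, hn⟩]
      · simp
      · intro b _ hb
        simp [Pi.single_eq_of_ne hb]
      · intro h
        exact absurd (Finset.mem_univ _) h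
    rw [h2, h3] at h1
    exact h1
  refine ⟨Matrix.of fun i j => ((h (Pi.single j 1) i : ℚ) : ℝ), fun n hn i => ?_⟩
  have hnB : n ∈ B := (Set.Finite.mem_toFinset _).2 hn
  have h1 : (fun j => (n j : ℚ)) = ∑ j, (n j : ℚ) • (Pi.single j (1 : ℚ) : Fin (r + 1) → ℚ) := by
    funext k
    rw [Finset.sum_apply, Finset.sum_eq_single k]
    · simp
    · intro b _ hb
      simp [Pi.single_eq_of_ne (Ne.symm hb)]
    · intro h
      exact absurd (Finset.mem_univ _) h
  have h2 := hval n hnB i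
  rw [h1, map_sum, Finset.sum_apply] at h2
  have h3 : ((θ n i : ℚ) : ℝ) = (θ n i : ℝ) := by push_cast; rfl
  rw [← h3, ← h2]
  rw [Matrix.mulVec, dotProduct]
  push_cast
  refine Finset.sum_congr rfl fun j _ => ?_
  rw [map_smul, Pi.smul_apply, smul_eq_mul, Matrix.of_apply]
  push_cast
  rw [mul_comm]
  rfl

end Pool.Agent.MPac5134.FR
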