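import Pool.Agent.Lib.MP_ac5134_an.FR.Defs

/-!
# FR2-LocHom: the locally additive map coming from a model

For `n ∈ Box (1/4)` choose `a, b, c, d ∈ G'` with `n₀ = π a + π b - π c - π d` and put `θ n = a + b - c - d` (`0`
elsewhere; `choose` and `if _ then _ else _`).
* `LocAdd`: for `n, n', n'' = n + n'` the relation `n₀ + n'₀ = n''₀` reads
  `π a + π b + π a' + π b' + π c'' + π d'' = π c + π d + π c' + π d' + π a'' + π b''`; `Iso6` with
  `x = ![a, b, a', b', c'', d'']`, `y = ![c, d, c', d', a'', b'']` (`Fin.sum_univ_six`).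
* `inj`: `θ n = θ n'` gives `a + b + c' + d' + a + a = a' + b' + c + d + a + a`, and `Iso6` gives the relation of the `π`.
-/

open Finset

namespace Pool.Agent.MPac5134.FR

theorem local_hom {r M : ℕ} {ξ : Fin r → ℤ} {H : Type} [AddCommGroup H] (G' : Finset H)
    (π : H → ZMod M) (hπ : Iso6 G' π)
    (hB : ∀ n ∈ Box M ξ (1 / 4), ∃ a ∈ G', ∃ b ∈ G', ∃ c ∈ G', ∃ d ∈ G',
      ((n 0 : ℤ) : ZMod M) = π a + π b - π c - π d) :
    ∃ θ : (Fin (r + 1) → ℤ) → H, LocAdd M ξ θ ∧
      (∀ n ∈ Box M ξ (1 / 4), ∃ a ∈ G', ∃ b ∈ G', ∃ c ∈ G', ∃ d ∈ G', θ n = a + b - c - d) ∧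
      ∀ n ∈ Box M ξ (1 / 4), ∀ n' ∈ Box M ξ (1 / 4), θ n = θ n' → (M : ℤ) ∣ n 0 - n' 0 := by
  classical
  choose! fa ha fb hb fc hc fd hd he using hB
  have hθ : ∀ n ∈ Box M ξ (1 / 4), (fun n => if n ∈ Box M ξ (1 / 4) then fa n + fb n - fc n - fd n
      else 0 : (Fin (r + 1) → ℤ) → H) n = fa n + fb n - fc n - fd n := by
    intro n hn
    simp only [if_pos hn]
  refine ⟨fun n => if n ∈ Box M ξ (1 / 4) then fa n + fb n - fc n - fd n else 0, ?_, ?_, ?_⟩
  · intro n n' hn hn' hnn
    rw [hθ n hn, hθ n' hn', hθ (n + n') hnn]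
    have key := (hπ ![fa n, fb n, fa n', fb n', fc (n + n'), fd (n + n')]
      ![fc n, fd n, fc n', fd n', fa (n + n'), fb (n + n')] ?_ ?_).2 ?_
    · simp only [Fin.sum_univ_six, Matrix.cons_val_zero, Matrix.cons_val_one, Matrix.cons_val] at key
      have h2 : fa (n + n') + fb (n + n') - fc (n + n') - fd (n + n')
          - ((fa n + fb n - fc n - fd n) + (fa n' + fb n' - fc n' - fd n'))
          = (fc n + fd n + fc n' + fd n' + fa (n + n') + fb (n + n'))
            - (fa n + fb n + fa n' + fb n' + fc (n + n') + fd (n + n')) := by abel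
      rw [← key, sub_self] at h2
      exact sub_eq_zero.mp h2
    · intro i
      fin_cases i
      · exact ha n hn
      · exact hb n hn
      · exact ha n' hn'
      · exact hb n' hn'
      · exact hc _ hnn
      · exact hd _ hnn
    · intro i
      fin_cases i
      · exact hc n hn
      · exact hd n hn
      · exact hc n' hn'
      · exact hd n' hn'
      · exact ha _ hnn
      · exact hb _ hnn
    · simp only [Fin.sum_univ_six, Matrix.cons_val_zero, Matrix.cons_val_one, Matrix.cons_val]
      have e1 := he n hn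
      have e2 := he n' hn'
      have e3 := he (n + n') hnn
      rw [Pi.add_apply] at e3
      push_cast at e3
      rw [e1, e2] at e3
      linear_combination e3
  · intro n hn
    exact ⟨fa n, ha n hn, fb n, hb n hn, fc n, hc n hn, fd n, hd n hn, hθ n hn⟩
  · intro n hn n' hn' h
    rw [hθ n hn, hθ n' hn'] at h
    have key := (hπ ![fa n, fb n, fc n', fd n', fa n, fa n]
      ![fa n', fb n', fc n, fd n, fa n, fa n] ?_ ?_).1 ?_
    · simp only [Fin.sum_univ_six, Matrix.cons_val_zero, Matrix.cons_val_one, Matrix.cons_val] at key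
      have e1 := he n hn
      have e2 := he n' hn'
      have e3 : ((n' 0 : ℤ) : ZMod M) = ((n 0 : ℤ) : ZMod M) := by
        rw [e1, e2]
        linear_combination -key
      exact (ZMod.intCast_eq_intCast_iff_dvd_sub _ _ _).1 e3
    · intro i
      fin_cases i
      · exact ha n hn
      · exact hb n hn
      · exact hc n' hn'
      · exact hd n' hn'
      · exact ha n hn
      · exact ha n hn
    · intro i
      fin_cases i
      · exact ha n' hn'
      · exact hb n' hn'
      · exact hc n hn
      · exact hd n hn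
      · exact ha n hn
      · exact ha n hn
    · simp only [Fin.sum_univ_six, Matrix.cons_val_zero, Matrix.cons_val_one, Matrix.cons_val]
      have h2 : (fa n + fb n + fc n' + fd n' + fa n + fa n)
          - (fa n' + fb n' + fc n + fd n + fa n + fa n)
          = (fa n + fb n - fc n - fd n) - (fa n' + fb n' - fc n' - fd n') := by abel
      rw [h, sub_self] at h2
      exact sub_eq_zero.mp h2

end Pool.Agent.MPac5134.FR
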