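import Pool.Agent.Lib.MP_ac5134_an.FR.Defs

/-!
# FR2-QForm: the quadratic form of the box

`L : Matrix (Fin (r+1)) (Fin (r+1)) ℝ` with `L *ᵥ rv n = lf M ξ n`: `L 0 0 = 1 / M`, `L (i+1) 0 = ξ i / M`,
`L (i+1) (i+1) = -1`, other entries `0`; `L` is injective (`L v = 0` gives `v 0 = 0`, then all `v (i+1) = 0`).
`Q = (16 (r + 1)) • (Lᵀ * L)`: positive definite (`Matrix.PosDef`: symmetric, `v ⬝ Q v = 16 (r+1) ‖L v‖² > 0` for `v ≠ 0`;
e.g. `Matrix.PosDef.conjTranspose_mul_self` / `Matrix.PosDef.smul`).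
`qf Q n = 16 (r+1) ∑ i, lf M ξ n i ^ 2` (`Lat.qf_transpose_mul`).
* `n ∈ Box (1 / (4 (r+1)))`: `∑ ≤ (r+1) / (16 (r+1)²)`, so `qf Q n ≤ 1`;
* `qf Q n ≤ 4`: `lf i ² ≤ 4 / (16 (r+1)) ≤ 1`.
-/

open Finset Matrix

namespace Pool.Agent.MPac5134.FR

open Pool.Agent.MPac5134.Lat

private noncomputable def LM {r : ℕ} (M : ℕ) (ξ : Fin r → ℤ) : Matrix (Fin (r + 1)) (Fin (r + 1)) ℝ :=
  Matrix.of (Fin.cons (fun j => if j = 0 then 1 / (M : ℝ) else 0)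
    (fun i j => if j = 0 then (ξ i : ℝ) / M else if j = i.succ then -1 else 0))

private theorem LM_mulVec_zero {r : ℕ} (M : ℕ) (ξ : Fin r → ℤ) (v : Fin (r + 1) → ℝ) :
    (LM M ξ *ᵥ v) 0 = v 0 / M := by
  rw [Matrix.mulVec, dotProduct, Fin.sum_univ_succ]
  simp [LM, Fin.succ_ne_zero]
  ring

private theorem LM_mulVec_succ {r : ℕ} (M : ℕ) (ξ : Fin r → ℤ) (v : Fin (r + 1) → ℝ) (i : Fin r) :
    (LM M ξ *ᵥ v) i.succ = v 0 * ξ i / M - v i.succ := by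
  rw [Matrix.mulVec, dotProduct, Fin.sum_univ_succ]
  simp [LM, Fin.succ_ne_zero, Fin.succ_inj]
  ring

private theorem LM_rv {r : ℕ} (M : ℕ) (ξ : Fin r → ℤ) (n : Fin (r + 1) → ℤ) :
    LM M ξ *ᵥ rv n = lf M ξ n := by
  ext i
  refine Fin.cases ?_ (fun i => ?_) i
  · rw [LM_mulVec_zero, lf_zero_idx]; rfl
  · rw [LM_mulVec_succ, lf_succ_idx]; rfl

private theorem LM_inj {r M : ℕ} (hM : 1 ≤ M) (ξ : Fin r → ℤ) :
    Function.Injective (LM M ξ).mulVec := by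
  intro v w hvw
  have hM0 : (M : ℝ) ≠ 0 := by exact_mod_cast (by omega : M ≠ 0)
  have h0 : v 0 = w 0 := by
    have := congrFun hvw 0
    simp only [LM_mulVec_zero] at this
    field_simp at this
    exact this
  ext i
  refine Fin.cases h0 (fun i => ?_) i
  have := congrFun hvw i.succ
  simp only [LM_mulVec_succ, h0] at this
  linarith

theorem exists_Q {r M : ℕ} (hM : 1 ≤ M) (ξ : Fin r → ℤ) :
    ∃ Q : Matrix (Fin (r + 1)) (Fin (r + 1)) ℝ, Q.PosDef ∧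
      (∀ n ∈ Box M ξ (1 / (4 * (r + 1))), qf Q n ≤ 1) ∧
      ∀ n, qf Q n ≤ 4 → n ∈ Box M ξ 1 := by
  have hr : (0 : ℝ) < (r : ℝ) + 1 := by positivity
  have hqf : ∀ n, qf ((16 * ((r : ℝ) + 1)) • ((LM M ξ)ᵀ * LM M ξ)) n =
      16 * ((r : ℝ) + 1) * ∑ i, lf M ξ n i ^ 2 := by
    intro n
    have h := qf_transpose_mul (LM M ξ) n
    rw [LM_rv] at h
    rw [← h]
    unfold qf
    rw [Matrix.smul_mulVec, dotProduct_smul, smul_eq_mul]
  refine ⟨(16 * ((r : ℝ) + 1)) • ((LM M ξ)ᵀ * LM M ξ), ?_, ?_, ?_⟩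
  · have h : ((LM M ξ)ᵀ * LM M ξ).PosDef := by
      have := Matrix.PosDef.conjTranspose_mul_self (LM M ξ) (LM_inj hM ξ)
      rwa [Matrix.conjTranspose_eq_transpose_of_trivial] at this
    exact h.smul (by positivity)
  · intro n hn
    rw [hqf]
    have hle : ∑ i, lf M ξ n i ^ 2 ≤ ∑ _i : Fin (r + 1), (1 / (4 * ((r : ℝ) + 1))) ^ 2 := by
      apply Finset.sum_le_sum
      intro i _
      have := hn i
      rw [← sq_abs]
      gcongr
    rw [Finset.sum_const, Finset.card_univ, Fintype.card_fin, nsmul_eq_mul] at hle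
    push_cast at hle
    calc 16 * ((r : ℝ) + 1) * ∑ i, lf M ξ n i ^ 2
        ≤ 16 * ((r : ℝ) + 1) * (((r : ℝ) + 1) * (1 / (4 * ((r : ℝ) + 1))) ^ 2) := by gcongr
      _ = 1 := by field_simp; norm_num
  · intro n hn i
    rw [hqf] at hn
    have h1 : lf M ξ n i ^ 2 ≤ ∑ j, lf M ξ n j ^ 2 :=
      Finset.single_le_sum (f := fun j => lf M ξ n j ^ 2) (fun j _ => sq_nonneg _) (Finset.mem_univ i)
    have h2 : 16 * lf M ξ n i ^ 2 ≤ 4 := by
      have h3 : (0 : ℝ) ≤ ∑ j, lf M ξ n j ^ 2 := Finset.sum_nonneg fun j _ => sq_nonneg _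
      have h4 : (0 : ℝ) ≤ (r : ℝ) := Nat.cast_nonneg r
      nlinarith [mul_nonneg h4 h3]
    have h5 : lf M ξ n i ^ 2 ≤ 1 := by linarith
    exact abs_le_one_iff_mul_self_le_one.mpr (by nlinarith)

end Pool.Agent.MPac5134.FR
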