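import Pool.Agent.Lib.MP_ac5134_an.FR.Defs

/-!
# FR2-Fourier: Parseval and the fourth moment on `ZMod M`

`e ξ = ZMod.stdAddChar ξ` (or `ZMod.toCircle`), `S ξ = ∑ a ∈ A, e (ξ * a)`.
Orthogonality: `∑ ξ, e (ξ * x) = if x = 0 then M else 0` (`AddChar.sum_mulShift`, `ZMod.isPrimitive_stdAddChar`).
`parseval`: `∑ ξ ‖S ξ‖² = ∑ ξ ∑ a b, e (ξ (a - b)) = M #A`.
`fourth`: `M r(x) = ∑ ξ ∑ (a,b,c,d), e (ξ (a + b - c - d - x)) = ∑ ξ ‖S ξ‖⁴ e (- ξ x)`; take real parts: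
`Re e (-ξ x) = cos (2 π (ξ x).valMinAbs / M)` (`ZMod.stdAddChar_apply`, `ZMod.toCircle_intCast`,
`ZMod.coe_valMinAbs`).
`cosv_nonneg`: `cos ≥ 0` on `[-π/2, π/2]`.
-/

open Finset

namespace Pool.Agent.MPac5134.FR

/-- the squared modulus of the Fourier coefficient of a finite set at `ξ` -/
noncomputable def F2 {M : ℕ} [NeZero M] (A : Finset (ZMod M)) (ξ : ZMod M) : ℝ :=
  ‖∑ a ∈ A, ZMod.stdAddChar (N := M) (ξ * a)‖ ^ 2

/-- the number of representations of `x` as `a + b - c - d` -/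
def rep4 {M : ℕ} (A : Finset (ZMod M)) (x : ZMod M) : ℕ :=
  (((A ×ˢ A) ×ˢ (A ×ˢ A)).filter (fun t => t.1.1 + t.1.2 - t.2.1 - t.2.2 = x)).card

/-- `cos (2 π ξ x / M)` -/
noncomputable def cosv {M : ℕ} (y : ZMod M) : ℝ := Real.cos (2 * Real.pi * (y.valMinAbs : ℝ) / M)

theorem F2_zero {M : ℕ} [NeZero M] (A : Finset (ZMod M)) : F2 A 0 = (A.card : ℝ) ^ 2 := by
  unfold F2
  simp

theorem F2_nonneg {M : ℕ} [NeZero M] (A : Finset (ZMod M)) (ξ : ZMod M) : 0 ≤ F2 A ξ := by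
  unfold F2
  positivity

private theorem four_orth {M : ℕ} [NeZero M] (x : ZMod M) :
    ∑ ξ : ZMod M, ZMod.stdAddChar (N := M) (ξ * x) = if x = 0 then (M : ℂ) else 0 := by
  have h := AddChar.sum_mulShift x (ZMod.isPrimitive_stdAddChar M)
  rw [h]
  split_ifs with h1
  · rw [ZMod.card]
  · simp

private theorem four_sq {M : ℕ} [NeZero M] (A : Finset (ZMod M)) (ξ : ZMod M) :
    (F2 A ξ : ℂ) = ∑ t ∈ A ×ˢ A, ZMod.stdAddChar (N := M) (ξ * (t.1 - t.2)) := by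
  unfold F2
  have h1 : ((‖∑ a ∈ A, ZMod.stdAddChar (N := M) (ξ * a)‖ ^ 2 : ℝ) : ℂ) =
      (∑ a ∈ A, ZMod.stdAddChar (N := M) (ξ * a)) *
        (starRingEnd ℂ) (∑ a ∈ A, ZMod.stdAddChar (N := M) (ξ * a)) := by
    rw [Complex.mul_conj, Complex.normSq_eq_norm_sq]
  rw [h1, map_sum, Finset.sum_mul_sum, Finset.sum_product]
  refine Finset.sum_congr rfl fun a _ => Finset.sum_congr rfl fun b _ => ?_
  rw [← AddChar.map_neg_eq_conj, ← AddChar.map_add_eq_mul]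
  congr 1
  ring

theorem parseval {M : ℕ} [NeZero M] (A : Finset (ZMod M)) : ∑ ξ, F2 A ξ = (M : ℝ) * A.card := by
  classical
  have h : ((∑ ξ, F2 A ξ : ℝ) : ℂ) = ((M : ℝ) * A.card : ℝ) := by
    push_cast
    simp only [four_sq]
    rw [Finset.sum_comm]
    simp only [four_orth]
    rw [Finset.sum_product]
    have h1 : ∀ a ∈ A, (∑ b ∈ A, if a - b = 0 then (M : ℂ) else 0) = M := by
      intro a ha
      simp only [sub_eq_zero]
      rw [Finset.sum_ite_eq]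
      rw [if_pos ha]
    rw [Finset.sum_congr rfl h1, Finset.sum_const, nsmul_eq_mul]
    ring
  exact_mod_cast h

private theorem four_re {M : ℕ} [NeZero M] (y : ZMod M) :
    (ZMod.stdAddChar (N := M) (-y)).re = cosv y := by
  unfold cosv
  have h1 : (y : ZMod M) = ((y.valMinAbs : ℤ) : ZMod M) := (ZMod.coe_valMinAbs y).symm
  have h2 : ZMod.stdAddChar (N := M) (-y) =
      Complex.exp (2 * Real.pi * Complex.I * ((-y.valMinAbs : ℤ) : ℂ) / M) := by
    conv_lhs => rw [h1]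
    rw [← Int.cast_neg, ZMod.stdAddChar_coe]
  rw [h2]
  have h3 : (2 * Real.pi * Complex.I * ((-y.valMinAbs : ℤ) : ℂ) / M) =
      ((-(2 * Real.pi * (y.valMinAbs : ℝ) / M) : ℝ) : ℂ) * Complex.I := by
    push_cast
    ring
  rw [h3, Complex.exp_ofReal_mul_I_re, Real.cos_neg]

theorem fourth {M : ℕ} [NeZero M] (A : Finset (ZMod M)) (x : ZMod M) :
    (M : ℝ) * rep4 A x = ∑ ξ, F2 A ξ ^ 2 * cosv (ξ * x) := by
  classical
  have h : ((M : ℂ) * rep4 A x) =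
      ∑ ξ, ((F2 A ξ ^ 2 : ℝ) : ℂ) * ZMod.stdAddChar (N := M) (-(ξ * x)) := by
    have h1 : ∀ ξ : ZMod M, ((F2 A ξ ^ 2 : ℝ) : ℂ) * ZMod.stdAddChar (N := M) (-(ξ * x)) =
        ∑ t ∈ (A ×ˢ A) ×ˢ (A ×ˢ A),
          ZMod.stdAddChar (N := M) (ξ * (t.1.1 + t.1.2 - t.2.1 - t.2.2 - x)) := by
      intro ξ
      have h2 : ((F2 A ξ ^ 2 : ℝ) : ℂ) = (F2 A ξ : ℂ) * (F2 A ξ : ℂ) := by
        push_cast
        ring
      rw [h2, four_sq, Finset.sum_mul_sum, Finset.sum_mul]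
      simp only [Finset.sum_product, Finset.sum_mul]
      refine Finset.sum_congr rfl fun a _ => ?_
      rw [Finset.sum_comm]
      refine Finset.sum_congr rfl fun b _ => Finset.sum_congr rfl fun c _ =>
        Finset.sum_congr rfl fun d _ => ?_
      rw [← AddChar.map_add_eq_mul, ← AddChar.map_add_eq_mul]
      congr 1
      ring
    simp only [h1]
    rw [Finset.sum_comm]
    simp only [four_orth]
    rw [← Finset.sum_filter, Finset.sum_const, nsmul_eq_mul, rep4]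
    simp only [sub_eq_zero]
    ring
  have h3 := congrArg Complex.re h
  rw [Complex.re_sum] at h3
  have h4 : ((M : ℂ) * rep4 A x).re = (M : ℝ) * rep4 A x := by
    have : ((M : ℂ) * rep4 A x) = (((M : ℝ) * rep4 A x : ℝ) : ℂ) := by push_cast; ring
    rw [this, Complex.ofReal_re]
  rw [h4] at h3
  rw [h3]
  refine Finset.sum_congr rfl fun ξ _ => ?_
  rw [Complex.re_ofReal_mul, four_re]

theorem cosv_nonneg {M : ℕ} [NeZero M] {y : ZMod M} (h : 4 * |y.valMinAbs| ≤ M) : 0 ≤ cosv y := by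
  unfold cosv
  have hM : (0 : ℝ) < M := by
    have := NeZero.pos M
    exact_mod_cast this
  have h1 : 4 * |(y.valMinAbs : ℝ)| ≤ M := by exact_mod_cast h
  have h2 := abs_le.mp (show |(y.valMinAbs : ℝ)| ≤ M / 4 by linarith)
  have hpi := Real.pi_pos
  apply Real.cos_nonneg_of_neg_pi_div_two_le_of_le
  · rw [le_div_iff₀ hM]
    nlinarith
  · rw [div_le_iff₀ hM]
    nlinarith

theorem cosv_ge {M : ℕ} (y : ZMod M) : -1 ≤ cosv y := Real.neg_one_le_cos _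

theorem cosv_zero {M : ℕ} : cosv (0 : ZMod M) = 1 := by
  unfold cosv
  simp

end Pool.Agent.MPac5134.FR
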