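import Mathlib

/-!
# Balog, Szemerédi, Gowers: definitions
-/

open Finset
open scoped Pointwise Combinatorics.Additive

namespace Pool.Agent.MPac5134.BSG

open scoped Classical in
/-- degree of `a` in `B` -/
noncomputable def deg {α β : Type} (B : Finset β) (r : α → β → Prop) (a : α) : ℕ :=
  (B.filter (fun b => r a b)).card

open scoped Classical in
/-- number of common neighbours of `a`, `a'` in `B` -/
noncomputable def codeg {α β : Type} (B : Finset β) (r : α → β → Prop) (a a' : α) : ℕ :=
  (B.filter (fun b => r a b ∧ r a' b)).card

open scoped Classical in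
/-- number of paths `a - b' - a' - b` of length three, `b' ∈ B`, `a' ∈ A` -/
noncomputable def paths {α β : Type} (A : Finset α) (B : Finset β) (r : α → β → Prop) (a : α)
    (b : β) : ℕ :=
  ((B ×ˢ A).filter (fun t => r a t.1 ∧ r t.2 t.1 ∧ r t.2 b)).card

open scoped Classical in
/-- number of representations of `d` as a difference of two elements of `G` -/
noncomputable def rep {H : Type} [AddCommGroup H] (G : Finset H) (d : H) : ℕ :=
  ((G ×ˢ G).filter (fun t => t.1 - t.2 = d)).card

/-- popular differences -/
def Pop {H : Type} [AddCommGroup H] (G : Finset H) (D : ℝ) (a b : H) : Prop :=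
  (G.card : ℝ) ≤ 2 * D * rep G (a - b)

end Pool.Agent.MPac5134.BSG
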