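import Pool.Agent.Lib.MP_ac5134_an.FR.BDefs

/-!
# FR2-BPop: popular differences

`E[G] = ∑ d ∈ G - G, rep G d ^ 2` (`a₁ + b₁ = a₂ + b₂` iff `a₁ - a₂ = b₂ - b₁`; group by `d`).
`∑ d, rep G d = #G²`; unpopular `d` (`2 D rep G d < #G`) contribute at most `(#G / (2 D)) ∑ rep = #G³ / (2 D)` to the energy,
so the popular ones contribute `≥ #G³ / (2 D)`; `rep G d ≤ #G`, so `∑ popular d, rep G d ≥ #G² / (2 D)`, and
`∑ a ∈ G, deg G (Pop G D) a = #{(a, b) ∈ G × G : a - b popular} = ∑ popular d, rep G d`.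
-/

open Finset
open scoped Pointwise Combinatorics.Additive

namespace Pool.Agent.MPac5134.BSG

private theorem rep_le {H : Type} [AddCommGroup H] (G : Finset H) (d : H) :
    rep G d ≤ G.card := by
  classical
  unfold rep
  refine Finset.card_le_card_of_injOn (fun t => t.1) ?_ ?_
  · intro t ht
    have := (Finset.mem_filter.mp ht).1
    exact (Finset.mem_product.mp this).1
  · intro t ht t' ht' h
    have h1 := (Finset.mem_filter.mp ht).2
    have h2 := (Finset.mem_filter.mp ht').2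
    have h3 : t.1 = t'.1 := h
    refine Prod.ext h3 ?_
    rw [← h2, h3] at h1
    exact sub_right_inj.mp h1

theorem edges_ge {H : Type} [AddCommGroup H] [DecidableEq H] (G : Finset H) {D : ℝ} (hD : 0 < D)
    (hE : (G.card : ℝ) ^ 3 ≤ D * (E[G] : ℕ)) :
    (G.card : ℝ) * G.card ≤ 2 * D * ∑ a ∈ G, (deg G (Pop G D) a : ℝ) := by
  classical
  rcases Finset.eq_empty_or_nonempty G with h0 | h0
  · subst h0
    simp
  have hG : (0 : ℝ) < G.card := by exact_mod_cast h0.card_pos
  -- the energy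
  have h1 : ((E[G] : ℕ) : ℝ) = ∑ t ∈ G ×ˢ G, (rep G (t.1 - t.2) : ℝ) := by
    have h2 : (E[G] : ℕ) = ∑ t ∈ G ×ˢ G, rep G (t.2 - t.1) := by
      rw [Finset.addEnergy]
      simp only [rep, Finset.card_filter]
      rw [Finset.sum_product]
      refine Finset.sum_congr rfl fun t _ => ?_
      refine Finset.sum_congr rfl fun u _ => ?_
      have hiff : (t.1 + u.1 = t.2 + u.2) ↔ (u.1 - u.2 = t.2 - t.1) := by
        rw [sub_eq_sub_iff_add_eq_add, add_comm u.1 t.1]
      by_cases hc : u.1 - u.2 = t.2 - t.1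
      · rw [if_pos hc, if_pos (hiff.mpr hc)]
      · rw [if_neg hc, if_neg (fun h => hc (hiff.mp h))]
    rw [h2]
    push_cast
    refine Finset.sum_bij' (fun t _ => t.swap) (fun t _ => t.swap) ?_ ?_ ?_ ?_ ?_
    · intro t ht
      rw [Finset.mem_product] at ht ⊢
      exact ⟨ht.2, ht.1⟩
    · intro t ht
      rw [Finset.mem_product] at ht ⊢
      exact ⟨ht.2, ht.1⟩
    · intro t _
      simp
    · intro t _
      simp
    · intro t _
      simp
  -- edges
  have h2 : ∑ a ∈ G, (deg G (Pop G D) a : ℝ) =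
      (((G ×ˢ G).filter (fun t => Pop G D t.1 t.2)).card : ℝ) := by
    simp only [deg, Finset.card_filter]
    push_cast
    rw [Finset.sum_product]
  rw [h2]
  set P : ℝ := (((G ×ˢ G).filter (fun t => Pop G D t.1 t.2)).card : ℝ) with hP
  have h3 : D * ∑ t ∈ G ×ˢ G, (rep G (t.1 - t.2) : ℝ) ≤ D * G.card * P + (G.card : ℝ) ^ 3 / 2 := by
    rw [← Finset.sum_filter_add_sum_filter_not (G ×ˢ G) (fun t => Pop G D t.1 t.2), mul_add]
    refine add_le_add ?_ ?_
    · rw [mul_assoc]
      refine mul_le_mul_of_nonneg_left ?_ hD.le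
      have h4 : ∑ t ∈ (G ×ˢ G).filter (fun t => Pop G D t.1 t.2), (rep G (t.1 - t.2) : ℝ) ≤
          ((G ×ˢ G).filter (fun t => Pop G D t.1 t.2)).card • (G.card : ℝ) :=
        Finset.sum_le_card_nsmul _ _ _ fun t _ => by exact_mod_cast rep_le G _
      rw [nsmul_eq_mul] at h4
      rw [mul_comm]
      exact h4
    · rw [Finset.mul_sum]
      have h4 : ∑ t ∈ (G ×ˢ G).filter (fun t => ¬ Pop G D t.1 t.2), D * (rep G (t.1 - t.2) : ℝ) ≤
          ((G ×ˢ G).filter (fun t => ¬ Pop G D t.1 t.2)).card • ((G.card : ℝ) / 2) := by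
        refine Finset.sum_le_card_nsmul _ _ _ fun t ht => ?_
        have h5 := (Finset.mem_filter.mp ht).2
        rw [Pop, not_le] at h5
        linarith
      refine h4.trans ?_
      rw [nsmul_eq_mul]
      have h5 : (((G ×ˢ G).filter (fun t => ¬ Pop G D t.1 t.2)).card : ℝ) ≤ (G.card : ℝ) ^ 2 := by
        have := Finset.card_filter_le (G ×ˢ G) (fun t => ¬ Pop G D t.1 t.2)
        rw [Finset.card_product] at this
        rw [pow_two]
        exact_mod_cast this
      calc (((G ×ˢ G).filter (fun t => ¬ Pop G D t.1 t.2)).card : ℝ) * ((G.card : ℝ) / 2)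
          ≤ (G.card : ℝ) ^ 2 * ((G.card : ℝ) / 2) :=
            mul_le_mul_of_nonneg_right h5 (by positivity)
        _ = (G.card : ℝ) ^ 3 / 2 := by ring
  rw [h1] at hE
  have h4 : (G.card : ℝ) * ((G.card : ℝ) * G.card) ≤ G.card * (2 * D * P) := by
    nlinarith
  exact le_of_mul_le_mul_left h4 hG

theorem rep_neg {H : Type} [AddCommGroup H] (G : Finset H) (d : H) : rep G (-d) = rep G d := by
  classical
  unfold rep
  refine Finset.card_bij' (fun t _ => t.swap) (fun t _ => t.swap) ?_ ?_ ?_ ?_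
  · intro t ht
    rw [Finset.mem_filter, Finset.mem_product] at ht ⊢
    refine ⟨⟨ht.1.2, ht.1.1⟩, ?_⟩
    have := ht.2
    change t.2 - t.1 = d
    rw [← neg_sub, this, neg_neg]
  · intro t ht
    rw [Finset.mem_filter, Finset.mem_product] at ht ⊢
    refine ⟨⟨ht.1.2, ht.1.1⟩, ?_⟩
    have := ht.2
    change t.2 - t.1 = -d
    rw [← neg_sub, this]
  · intro t _
    simp
  · intro t _
    simp

end Pool.Agent.MPac5134.BSG
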