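import Pool.Agent.Lib.MP_ac5134_an.FR.BTwo

/-!
# FR2-BThree: many paths of length three (Tao, Vu, Lemma 6.20)

`A₁ = {a ∈ A : deg a ≥ #B / (2 K)}`: `∑ a ∈ A₁, deg a ≥ #A #B / K - #A #B / (2 K) = #A #B / (2 K)`; so `A₁ ≠ ∅`, and
with `K₁ = 2 K #A₁ / #A ≤ 2 K`: `#A₁ #B ≤ K₁ ∑ a ∈ A₁, deg a`.  `paths_two` for `A₁, B, K₁`, `ε = 1 / (16 K)`:
`A₂ = {a ∈ A₁ : r a b₀}`, `#A₂² ≥ #A₁² / (2 K₁²) = #A² / (8 K²)`, so `3 K #A₂ ≥ #A`; the pairs of `A₂ × A₂` with
`codeg < #B / (128 K³)` (`≤ ε #B / (2 K₁²)`) are at most `#A₂² / (16 K)`.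
`A' = {a ∈ A₂ : #{a' ∈ A₂ : codeg a a' < #B / (128 K³)} ≤ #A₂ / (8 K)}`: Markov: `#A' ≥ #A₂ / 2`.
`B' = {b ∈ B : #{a ∈ A₂ : r a b} ≥ #A₂ / (4 K)}`: `∑ b ∈ B #{a ∈ A₂ : r a b} = ∑ a ∈ A₂ deg a ≥ #A₂ #B / (2 K)`, so
`#B' ≥ #B / (4 K)`.
For `a ∈ A'`, `b ∈ B'`: at least `#A₂/(4K) - #A₂/(8K)` of the `a' ∈ A₂` with `r a' b` have `codeg a a' ≥ #B/(128 K³)`:
`paths ≥ #A₂/(8K) · #B/(128 K³) ≥ #A #B / (3072 K⁵)`.
-/

open Finset

namespace Pool.Agent.MPac5134.BSG

open scoped Classical in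
private theorem three_sum_codeg_le {α β : Type} (A : Finset α) (B : Finset β) (r : α → β → Prop)
    (a : α) (b : β) (S : Finset α) (hS : S ⊆ A) (hr : ∀ a' ∈ S, r a' b) :
    ∑ a' ∈ S, codeg B r a a' ≤ paths A B r a b := by
  have h1 : paths A B r a b
      = ∑ a' ∈ A, ∑ b' ∈ B, if r a b' ∧ r a' b' ∧ r a' b then 1 else 0 := by
    unfold paths
    rw [Finset.card_filter, Finset.sum_product, Finset.sum_comm]
  rw [h1]
  calc ∑ a' ∈ S, codeg B r a a'
      = ∑ a' ∈ S, ∑ b' ∈ B, if r a b' ∧ r a' b' ∧ r a' b then 1 else 0 := by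
        refine Finset.sum_congr rfl fun a' ha' => ?_
        unfold codeg
        rw [Finset.card_filter]
        refine Finset.sum_congr rfl fun b' _ => ?_
        simp only [hr a' ha', and_true]
    _ ≤ _ := Finset.sum_le_sum_of_subset hS

theorem paths_three {α β : Type} (A : Finset α) (B : Finset β) (hA : A.Nonempty) (hB : B.Nonempty)
    (r : α → β → Prop) {K : ℝ} (hK : 1 ≤ K)
    (hE : (A.card : ℝ) * B.card ≤ K * ∑ a ∈ A, (deg B r a : ℝ)) :
    ∃ A' ⊆ A, ∃ B' ⊆ B, (A.card : ℝ) ≤ 8 * K * A'.card ∧ (B.card : ℝ) ≤ 4 * K * B'.card ∧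
      ∀ a ∈ A', ∀ b ∈ B', (A.card : ℝ) * B.card ≤ 4096 * K ^ 5 * paths A B r a b := by
  classical
  have hnA : (0 : ℝ) < A.card := by exact_mod_cast hA.card_pos
  have hnB : (0 : ℝ) < B.card := by exact_mod_cast hB.card_pos
  have hK0 : (0 : ℝ) < K := by linarith
  set nA : ℝ := (A.card : ℝ) with hnAd
  set nB : ℝ := (B.card : ℝ) with hnBd
  -- the vertices of large degree
  set A₁ : Finset α := A.filter (fun a => nB ≤ 2 * K * deg B r a) with hA₁
  have hA₁A : A₁ ⊆ A := Finset.filter_subset _ _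
  have hcard₁ : (A₁.card : ℝ) ≤ nA := Nat.cast_le.2 (Finset.card_le_card hA₁A)
  have hsum₁ : nA * nB ≤ 2 * K * ∑ a ∈ A₁, (deg B r a : ℝ) := by
    have h1 : ∑ a ∈ A, (deg B r a : ℝ)
        = ∑ a ∈ A₁, (deg B r a : ℝ) + ∑ a ∈ A.filter (fun a => ¬ nB ≤ 2 * K * deg B r a),
          (deg B r a : ℝ) := (Finset.sum_filter_add_sum_filter_not A _ _).symm
    have h2 : 2 * K * ∑ a ∈ A.filter (fun a => ¬ nB ≤ 2 * K * deg B r a), (deg B r a : ℝ)
        ≤ nA * nB := by
      rw [Finset.mul_sum]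
      calc ∑ a ∈ A.filter (fun a => ¬ nB ≤ 2 * K * deg B r a), 2 * K * (deg B r a : ℝ)
          ≤ ∑ _a ∈ A.filter (fun a => ¬ nB ≤ 2 * K * deg B r a), nB :=
            Finset.sum_le_sum fun a ha => (not_le.1 (Finset.mem_filter.1 ha).2).le
        _ = ((A.filter (fun a => ¬ nB ≤ 2 * K * deg B r a)).card : ℝ) * nB := by
            rw [Finset.sum_const, nsmul_eq_mul]
        _ ≤ nA * nB := by
            exact mul_le_mul_of_nonneg_right
              (Nat.cast_le.2 (Finset.card_le_card (Finset.filter_subset _ _))) hnB.le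
    rw [h1] at hE
    have h3 : 2 * K * (∑ a ∈ A₁, (deg B r a : ℝ)
        + ∑ a ∈ A.filter (fun a => ¬ nB ≤ 2 * K * deg B r a), (deg B r a : ℝ))
        = 2 * K * ∑ a ∈ A₁, (deg B r a : ℝ)
          + 2 * K * ∑ a ∈ A.filter (fun a => ¬ nB ≤ 2 * K * deg B r a), (deg B r a : ℝ) := by
      ring
    have h4 : 2 * (nA * nB) ≤ 2 * K * (∑ a ∈ A₁, (deg B r a : ℝ)
        + ∑ a ∈ A.filter (fun a => ¬ nB ≤ 2 * K * deg B r a), (deg B r a : ℝ)) := by
      calc 2 * (nA * nB) ≤ 2 * (K * (∑ a ∈ A₁, (deg B r a : ℝ)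
        + ∑ a ∈ A.filter (fun a => ¬ nB ≤ 2 * K * deg B r a), (deg B r a : ℝ))) :=
            mul_le_mul_of_nonneg_left hE (by norm_num)
        _ = _ := by ring
    linarith
  have hA₁pos : (0 : ℝ) < A₁.card := by
    have h1 : A₁.Nonempty := by
      rw [Finset.nonempty_iff_ne_empty]
      intro h
      rw [h, Finset.sum_empty, mul_zero] at hsum₁
      have := mul_pos hnA hnB
      linarith
    exact_mod_cast h1.card_pos
  set K₁ : ℝ := 2 * K * A₁.card / nA with hK₁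
  have hK₁pos : 0 < K₁ := by positivity
  have hK₁le : K₁ ≤ 2 * K := by
    rw [hK₁, div_le_iff₀ hnA]
    exact mul_le_mul_of_nonneg_left hcard₁ (by positivity)
  have hE₁ : (A₁.card : ℝ) * B.card ≤ K₁ * ∑ a ∈ A₁, (deg B r a : ℝ) := by
    rw [hK₁, div_mul_eq_mul_div, le_div_iff₀ hnA]
    have := mul_le_mul_of_nonneg_left hsum₁ hA₁pos.le
    calc (A₁.card : ℝ) * B.card * nA = A₁.card * (nA * nB) := by rw [hnBd]; ring
      _ ≤ A₁.card * (2 * K * ∑ a ∈ A₁, (deg B r a : ℝ)) := this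
      _ = _ := by ring
  obtain ⟨b₀, _, hsq, hbad⟩ := paths_two A₁ B hB r (K := K₁) (ε := 1 / (16 * K)) hK₁pos
    (by positivity) hE₁
  set A₂ : Finset α := A₁.filter (fun a => r a b₀) with hA₂
  have hA₂A₁ : A₂ ⊆ A₁ := Finset.filter_subset _ _
  set n₂ : ℝ := (A₂.card : ℝ) with hn₂
  have hn₂0 : 0 ≤ n₂ := Nat.cast_nonneg _
  have hAA₂ : nA ≤ 3 * K * n₂ := by
    have h1 : nA ^ 2 ≤ 8 * K ^ 2 * n₂ ^ 2 := by
      have h2 : 2 * K₁ ^ 2 * n₂ ^ 2 = 8 * K ^ 2 * n₂ ^ 2 * (A₁.card : ℝ) ^ 2 / nA ^ 2 := by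
        rw [hK₁]
        ring
      rw [h2, le_div_iff₀ (by positivity)] at hsq
      have h3 : (0 : ℝ) < (A₁.card : ℝ) ^ 2 := by positivity
      by_contra hcon
      have h4 := mul_lt_mul_of_pos_left (not_le.1 hcon) h3
      linarith
    by_contra hcon
    have h5 : 3 * K * n₂ < nA := not_le.1 hcon
    have h6 : (3 * K * n₂) ^ 2 < nA ^ 2 := by
      apply pow_lt_pow_left₀ h5 (by positivity) (by norm_num)
    have h7 : 0 ≤ K ^ 2 * n₂ ^ 2 := by positivity
    nlinarith [h1, h6, h7]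
  have hn₂pos : 0 < n₂ := by
    rcases hn₂0.lt_or_eq with h | h
    · exact h
    · rw [← h, mul_zero] at hAA₂
      linarith
  set τ : ℝ := nB / (128 * K ^ 3) with hτ
  have hτle : τ ≤ 1 / (16 * K) * B.card / (2 * K₁ ^ 2) := by
    have h1 : 1 / (16 * K) * (B.card : ℝ) / (2 * K₁ ^ 2) = nB / (32 * K * K₁ ^ 2) := by
      rw [hnBd]
      field_simp
      norm_num
    rw [h1, hτ]
    apply div_le_div_of_nonneg_left hnB.le (by positivity)
    have h2 : K₁ ^ 2 ≤ (2 * K) ^ 2 := pow_le_pow_left₀ hK₁pos.le hK₁le 2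
    calc 32 * K * K₁ ^ 2 ≤ 32 * K * (2 * K) ^ 2 := by
          apply mul_le_mul_of_nonneg_left h2 (by positivity)
      _ = 128 * K ^ 3 := by ring
  -- bad pairs
  have hbadsum : ∑ a ∈ A₂, ((A₂.filter (fun a' => (codeg B r a a' : ℝ) < τ)).card : ℝ)
      ≤ 1 / (16 * K) * n₂ ^ 2 := by
    refine le_trans ?_ hbad
    have h1 : (((A₂ ×ˢ A₂).filter (fun t => (codeg B r t.1 t.2 : ℝ) < τ)).card : ℝ)
        = ∑ a ∈ A₂, ((A₂.filter (fun a' => (codeg B r a a' : ℝ) < τ)).card : ℝ) := by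
      rw [Finset.card_filter, Finset.sum_product]
      push_cast
      refine Finset.sum_congr rfl fun a _ => ?_
      rw [Finset.card_filter]
      push_cast
      rfl
    rw [← h1]
    have h2 : (A₂ ×ˢ A₂).filter (fun t => (codeg B r t.1 t.2 : ℝ) < τ)
        ⊆ (A₂ ×ˢ A₂).filter
          (fun t => (codeg B r t.1 t.2 : ℝ) < 1 / (16 * K) * B.card / (2 * K₁ ^ 2)) := by
      intro t ht
      rw [Finset.mem_filter] at ht ⊢
      exact ⟨ht.1, lt_of_lt_of_le ht.2 hτle⟩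
    exact_mod_cast Finset.card_le_card h2
  set A' : Finset α := A₂.filter
    (fun a => 8 * K * ((A₂.filter (fun a' => (codeg B r a a' : ℝ) < τ)).card : ℝ) ≤ n₂) with hA'
  have hA'card : n₂ ≤ 2 * A'.card := by
    have h1 : ((A₂.filter (fun a => ¬ 8 * K *
        ((A₂.filter (fun a' => (codeg B r a a' : ℝ) < τ)).card : ℝ) ≤ n₂)).card : ℝ) * n₂
        ≤ 8 * K * ∑ a ∈ A₂, ((A₂.filter (fun a' => (codeg B r a a' : ℝ) < τ)).card : ℝ) := by
      rw [← nsmul_eq_mul, ← Finset.sum_const, Finset.mul_sum]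
      calc _ ≤ ∑ a ∈ A₂.filter (fun a => ¬ 8 * K *
          ((A₂.filter (fun a' => (codeg B r a a' : ℝ) < τ)).card : ℝ) ≤ n₂), 8 * K *
          ((A₂.filter (fun a' => (codeg B r a a' : ℝ) < τ)).card : ℝ) :=
            Finset.sum_le_sum fun a ha => (not_le.1 (Finset.mem_filter.1 ha).2).le
        _ ≤ _ := Finset.sum_le_sum_of_subset_of_nonneg (Finset.filter_subset _ _)
            fun _ _ _ => by positivity
    have h2 : 8 * K * ∑ a ∈ A₂, ((A₂.filter (fun a' => (codeg B r a a' : ℝ) < τ)).card : ℝ)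
        ≤ n₂ ^ 2 / 2 := by
      calc _ ≤ 8 * K * (1 / (16 * K) * n₂ ^ 2) :=
            mul_le_mul_of_nonneg_left hbadsum (by positivity)
        _ = n₂ ^ 2 / 2 := by
            field_simp
            norm_num
    have h3 : ((A₂.filter (fun a => ¬ 8 * K *
        ((A₂.filter (fun a' => (codeg B r a a' : ℝ) < τ)).card : ℝ) ≤ n₂)).card : ℝ)
        ≤ n₂ / 2 := by
      have h4 := h1.trans h2
      by_contra hcon
      have h5 := mul_lt_mul_of_pos_right (not_le.1 hcon) hn₂pos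
      have h6 : n₂ / 2 * n₂ = n₂ ^ 2 / 2 := by ring
      linarith
    have h4 : (A'.card : ℝ) + ((A₂.filter (fun a => ¬ 8 * K *
        ((A₂.filter (fun a' => (codeg B r a a' : ℝ) < τ)).card : ℝ) ≤ n₂)).card : ℝ) = n₂ := by
      rw [hn₂, hA']
      exact_mod_cast Finset.card_filter_add_card_filter_not (s := A₂) _
    linarith
  set B' : Finset β := B.filter
    (fun b => n₂ ≤ 4 * K * ((A₂.filter (fun a => r a b)).card : ℝ)) with hB'
  have hB'card : nB ≤ 4 * K * B'.card := by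
    have h1 : ∑ b ∈ B, ((A₂.filter (fun a => r a b)).card : ℝ) = ∑ a ∈ A₂, (deg B r a : ℝ) := by
      have h2 : ∑ b ∈ B, (A₂.filter (fun a => r a b)).card = ∑ a ∈ A₂, deg B r a := by
        unfold deg
        simp only [Finset.card_filter]
        exact Finset.sum_comm
      exact_mod_cast h2
    have h2 : n₂ * nB ≤ 2 * K * ∑ a ∈ A₂, (deg B r a : ℝ) := by
      rw [Finset.mul_sum, hn₂, ← nsmul_eq_mul, ← Finset.sum_const]
      exact Finset.sum_le_sum fun a ha => (Finset.mem_filter.1 (hA₂A₁ ha)).2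
    have h3 : 4 * K * ∑ b ∈ B.filter (fun b => ¬ n₂ ≤ 4 * K *
        ((A₂.filter (fun a => r a b)).card : ℝ)), ((A₂.filter (fun a => r a b)).card : ℝ)
        ≤ nB * n₂ := by
      rw [Finset.mul_sum]
      calc _ ≤ ∑ _b ∈ B.filter (fun b => ¬ n₂ ≤ 4 * K *
          ((A₂.filter (fun a => r a b)).card : ℝ)), n₂ :=
            Finset.sum_le_sum fun b hb => (not_le.1 (Finset.mem_filter.1 hb).2).le
        _ = ((B.filter (fun b => ¬ n₂ ≤ 4 * K *
          ((A₂.filter (fun a => r a b)).card : ℝ))).card : ℝ) * n₂ := by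
            rw [Finset.sum_const, nsmul_eq_mul]
        _ ≤ nB * n₂ := by
            exact mul_le_mul_of_nonneg_right
              (Nat.cast_le.2 (Finset.card_le_card (Finset.filter_subset _ _))) hn₂0
    have h4 : ∑ b ∈ B', ((A₂.filter (fun a => r a b)).card : ℝ) ≤ B'.card * n₂ := by
      rw [← nsmul_eq_mul, ← Finset.sum_const]
      exact Finset.sum_le_sum fun b _ => by
        rw [hn₂]
        exact_mod_cast Finset.card_le_card (Finset.filter_subset _ _)
    have h5 : ∑ b ∈ B, ((A₂.filter (fun a => r a b)).card : ℝ)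
        = ∑ b ∈ B', ((A₂.filter (fun a => r a b)).card : ℝ)
          + ∑ b ∈ B.filter (fun b => ¬ n₂ ≤ 4 * K * ((A₂.filter (fun a => r a b)).card : ℝ)),
            ((A₂.filter (fun a => r a b)).card : ℝ) :=
      (Finset.sum_filter_add_sum_filter_not B _ _).symm
    rw [← h1, h5] at h2
    have h6 : n₂ * nB ≤ 4 * K * (B'.card * n₂) := by
      have h7 := mul_le_mul_of_nonneg_left h4 (show (0 : ℝ) ≤ 4 * K by positivity)
      rw [mul_add] at h2
      have h9 : nB * n₂ = n₂ * nB := mul_comm _ _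
      rw [h9] at h3
      clear_value n₂ nB A₂ B' K₁
      linarith
    have h10 : n₂ * nB ≤ n₂ * (4 * K * B'.card) := by
      calc n₂ * nB ≤ 4 * K * (B'.card * n₂) := h6
        _ = n₂ * (4 * K * B'.card) := by ring
    exact le_of_mul_le_mul_left h10 hn₂pos
  refine ⟨A', (Finset.filter_subset _ _).trans (hA₂A₁.trans hA₁A), B', Finset.filter_subset _ _,
    ?_, hB'card, ?_⟩
  · have h1 : 0 ≤ (A'.card : ℝ) := Nat.cast_nonneg _
    have h2 : 3 * K * n₂ ≤ 3 * K * (2 * A'.card) :=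
      mul_le_mul_of_nonneg_left hA'card (by positivity)
    have h3 : 0 ≤ K * (A'.card : ℝ) := by positivity
    have h4 : 3 * K * (2 * (A'.card : ℝ)) = 6 * (K * A'.card) := by ring
    have h5 : 8 * K * (A'.card : ℝ) = 8 * (K * A'.card) := by ring
    rw [h5]
    rw [h4] at h2
    linarith
  · intro a ha b hb
    have ha1 := (Finset.mem_filter.1 ha).2
    have hb1 := (Finset.mem_filter.1 hb).2
    set S : Finset α := A₂.filter (fun a' => r a' b ∧ ¬ (codeg B r a a' : ℝ) < τ) with hS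
    have hScard : n₂ ≤ 8 * K * S.card := by
      have h1 : ((A₂.filter (fun a' => r a' b)).card : ℝ)
          ≤ S.card + ((A₂.filter (fun a' => (codeg B r a a' : ℝ) < τ)).card : ℝ) := by
        have h2 : A₂.filter (fun a' => r a' b)
            ⊆ S ∪ A₂.filter (fun a' => (codeg B r a a' : ℝ) < τ) := by
          intro a' ha'
          have ha2 := Finset.mem_filter.1 ha'
          by_cases h : (codeg B r a a' : ℝ) < τ
          · exact Finset.mem_union_right _ (Finset.mem_filter.2 ⟨ha2.1, h⟩)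
          · exact Finset.mem_union_left _ (Finset.mem_filter.2 ⟨ha2.1, ha2.2, h⟩)
        exact_mod_cast (Finset.card_le_card h2).trans (Finset.card_union_le _ _)
      have h3 := mul_le_mul_of_nonneg_left h1 (show (0 : ℝ) ≤ 8 * K by positivity)
      rw [mul_add] at h3
      have h4 : 8 * K * ((A₂.filter (fun a' => r a' b)).card : ℝ)
          = 2 * (4 * K * ((A₂.filter (fun a' => r a' b)).card : ℝ)) := by ring
      rw [h4] at h3
      linarith
    have hSA : S ⊆ A := (Finset.filter_subset _ _).trans (hA₂A₁.trans hA₁A)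
    have hp := three_sum_codeg_le A B r a b S hSA fun a' ha' => (Finset.mem_filter.1 ha').2.1
    have hp2 : (S.card : ℝ) * τ ≤ paths A B r a b := by
      calc (S.card : ℝ) * τ = ∑ _a' ∈ S, τ := by rw [Finset.sum_const, nsmul_eq_mul]
        _ ≤ ∑ a' ∈ S, (codeg B r a a' : ℝ) :=
            Finset.sum_le_sum fun a' ha' => not_lt.1 (Finset.mem_filter.1 ha').2.2
        _ ≤ paths A B r a b := by exact_mod_cast hp
    have hτ2 : nB = 128 * K ^ 3 * τ := by
      rw [hτ]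
      field_simp
    have hτ0 : 0 ≤ τ := by positivity
    calc nA * nB ≤ 3 * K * (8 * K * S.card) * (128 * K ^ 3 * τ) := by
          rw [← hτ2]
          apply mul_le_mul_of_nonneg_right _ hnB.le
          exact hAA₂.trans (mul_le_mul_of_nonneg_left hScard (by positivity))
      _ = 3072 * K ^ 5 * (S.card * τ) := by ring
      _ ≤ 3072 * K ^ 5 * paths A B r a b := mul_le_mul_of_nonneg_left hp2 (by positivity)
      _ ≤ 4096 * K ^ 5 * paths A B r a b := by
          have : (0 : ℝ) ≤ K ^ 5 * paths A B r a b := by positivity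
          nlinarith

end Pool.Agent.MPac5134.BSG
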