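import Pool.Agent.Lib.MP_ac5134_an.FR.BDefs

/-!
# FR2-BTwo: dependent random choice (Tao, Vu, Lemma 6.19)

For `b ∈ B` let `N b = A.filter (r · b)`.  Double counting: `∑ b ∈ B, #(N b) = ∑ a ∈ A, deg B r a ≥ #A #B / K`, so by
Cauchy-Schwarz `∑ b #(N b)² ≥ #A² #B / K²`.  Let `Ω = {(a, a') ∈ A × A : codeg a a' < ε #B / (2 K²)}`:
`∑ b #(Ω ∩ (N b)²) = ∑ (a,a') ∈ Ω codeg a a' ≤ #A² ε #B / (2 K²)`.  Hence
`∑ b (#(N b)² - ε⁻¹ #(Ω ∩ (N b)²)) ≥ #A² #B / (2 K²)`, and some `b ∈ B` has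
`#(N b)² - ε⁻¹ #(Ω ∩ (N b)²) ≥ #A² / (2 K²) ≥ 0`.
-/

open Finset

namespace Pool.Agent.MPac5134.BSG

open scoped Classical in
theorem paths_two {α β : Type} (A : Finset α) (B : Finset β) (hB : B.Nonempty)
    (r : α → β → Prop) {K ε : ℝ} (hK : 0 < K) (hε : 0 < ε)
    (hE : (A.card : ℝ) * B.card ≤ K * ∑ a ∈ A, (deg B r a : ℝ)) :
    ∃ b ∈ B, (A.card : ℝ) ^ 2 ≤ 2 * K ^ 2 * ((A.filter (fun a => r a b)).card : ℝ) ^ 2 ∧
      ((((A.filter (fun a => r a b)) ×ˢ (A.filter (fun a => r a b))).filter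
        (fun t => (codeg B r t.1 t.2 : ℝ) < ε * B.card / (2 * K ^ 2))).card : ℝ) ≤
        ε * ((A.filter (fun a => r a b)).card : ℝ) ^ 2 := by
  classical
  set N : β → Finset α := fun b => A.filter (fun a => r a b) with hN
  set c : ℝ := ε * B.card / (2 * K ^ 2) with hc
  set W : β → Finset (α × α) := fun b =>
    (N b ×ˢ N b).filter (fun t => (codeg B r t.1 t.2 : ℝ) < c) with hW
  have hBpos : (0 : ℝ) < B.card := by exact_mod_cast hB.card_pos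
  have hc0 : 0 ≤ c := by positivity
  -- first moment
  have h1 : ∑ b ∈ B, ((N b).card : ℝ) = ∑ a ∈ A, (deg B r a : ℝ) := by
    simp only [hN, deg, Finset.card_filter]
    push_cast
    exact Finset.sum_comm
  have h2 : (A.card : ℝ) ^ 2 * B.card ≤ K ^ 2 * ∑ b ∈ B, ((N b).card : ℝ) ^ 2 := by
    have h3 : (∑ b ∈ B, ((N b).card : ℝ)) ^ 2 ≤ (B.card : ℝ) * ∑ b ∈ B, ((N b).card : ℝ) ^ 2 :=
      sq_sum_le_card_mul_sum_sq
    rw [← h1] at hE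
    have h4 : ((A.card : ℝ) * B.card) ^ 2 ≤ (K * ∑ b ∈ B, ((N b).card : ℝ)) ^ 2 :=
      pow_le_pow_left₀ (by positivity) hE 2
    rw [mul_pow, mul_pow] at h4
    have h5 : (A.card : ℝ) ^ 2 * (B.card : ℝ) ^ 2 ≤
        K ^ 2 * ((B.card : ℝ) * ∑ b ∈ B, ((N b).card : ℝ) ^ 2) :=
      h4.trans (mul_le_mul_of_nonneg_left h3 (by positivity))
    have h6 : (B.card : ℝ) * ((A.card : ℝ) ^ 2 * B.card) ≤
        (B.card : ℝ) * (K ^ 2 * ∑ b ∈ B, ((N b).card : ℝ) ^ 2) := by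
      calc (B.card : ℝ) * ((A.card : ℝ) ^ 2 * B.card) = (A.card : ℝ) ^ 2 * (B.card : ℝ) ^ 2 := by
            ring
        _ ≤ K ^ 2 * ((B.card : ℝ) * ∑ b ∈ B, ((N b).card : ℝ) ^ 2) := h5
        _ = _ := by ring
    exact le_of_mul_le_mul_left h6 hBpos
  -- the bad pairs
  have h3 : ∑ b ∈ B, ((W b).card : ℝ) ≤ (A.card : ℝ) ^ 2 * c := by
    have e1 : ∀ b ∈ B, ((W b).card : ℝ) = ∑ t ∈ (A ×ˢ A).filter
        (fun t => (codeg B r t.1 t.2 : ℝ) < c), (if r t.1 b ∧ r t.2 b then (1 : ℝ) else 0) := by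
      intro b _
      rw [← Finset.sum_filter, Finset.sum_const, nsmul_eq_mul, mul_one]
      congr 2
      ext t
      simp only [hW, hN, Finset.mem_filter, Finset.mem_product]
      tauto
    rw [Finset.sum_congr rfl e1, Finset.sum_comm]
    have e2 : ∀ t ∈ (A ×ˢ A).filter (fun t => (codeg B r t.1 t.2 : ℝ) < c),
        ∑ b ∈ B, (if r t.1 b ∧ r t.2 b then (1 : ℝ) else 0) ≤ c := by
      intro t ht
      rw [Finset.mem_filter] at ht
      have e3 : ∑ b ∈ B, (if r t.1 b ∧ r t.2 b then (1 : ℝ) else 0) = (codeg B r t.1 t.2 : ℝ) := by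
        rw [codeg, Finset.card_filter]
        push_cast
        rfl
      rw [e3]
      exact ht.2.le
    refine (Finset.sum_le_card_nsmul _ _ c e2).trans ?_
    rw [nsmul_eq_mul]
    refine mul_le_mul_of_nonneg_right ?_ hc0
    have e4 : ((A ×ˢ A).filter (fun t => (codeg B r t.1 t.2 : ℝ) < c)).card ≤ A.card ^ 2 := by
      refine (Finset.card_filter_le _ _).trans ?_
      rw [Finset.card_product, pow_two]
    exact_mod_cast e4
  -- averaging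
  obtain ⟨b, hb, hle⟩ : ∃ b ∈ B, (A.card : ℝ) ^ 2 / (2 * K ^ 2) ≤
      ((N b).card : ℝ) ^ 2 - ε⁻¹ * ((W b).card : ℝ) := by
    refine Finset.exists_le_of_sum_le hB ?_
    rw [Finset.sum_const, nsmul_eq_mul, Finset.sum_sub_distrib, ← Finset.mul_sum]
    have h4 : (A.card : ℝ) ^ 2 * B.card / K ^ 2 ≤ ∑ b ∈ B, ((N b).card : ℝ) ^ 2 := by
      rw [div_le_iff₀ (by positivity)]
      linarith
    have h5 : ε⁻¹ * ∑ b ∈ B, ((W b).card : ℝ) ≤ (A.card : ℝ) ^ 2 * B.card / (2 * K ^ 2) := by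
      have h6 : ε⁻¹ * ∑ b ∈ B, ((W b).card : ℝ) ≤ ε⁻¹ * ((A.card : ℝ) ^ 2 * c) :=
        mul_le_mul_of_nonneg_left h3 (by positivity)
      refine h6.trans (le_of_eq ?_)
      rw [hc]
      field_simp
    have h6 : (B.card : ℝ) * ((A.card : ℝ) ^ 2 / (2 * K ^ 2)) =
        (A.card : ℝ) ^ 2 * B.card / K ^ 2 - (A.card : ℝ) ^ 2 * B.card / (2 * K ^ 2) := by
      field_simp
      ring
    rw [h6]
    linarith
  have hp1 : 0 ≤ ε⁻¹ * ((W b).card : ℝ) := by positivity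
  have hp2 : 0 ≤ (A.card : ℝ) ^ 2 / (2 * K ^ 2) := by positivity
  refine ⟨b, hb, ?_, ?_⟩
  · have h4 : (A.card : ℝ) ^ 2 / (2 * K ^ 2) ≤ ((N b).card : ℝ) ^ 2 := by linarith
    rw [div_le_iff₀ (by positivity)] at h4
    calc (A.card : ℝ) ^ 2 ≤ ((N b).card : ℝ) ^ 2 * (2 * K ^ 2) := h4
      _ = 2 * K ^ 2 * ((N b).card : ℝ) ^ 2 := by ring
  · have h4 : ε⁻¹ * ((W b).card : ℝ) ≤ ((N b).card : ℝ) ^ 2 := by linarith
    rwa [inv_mul_le_iff₀ hε] at h4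

end Pool.Agent.MPac5134.BSG
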