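import Pool.Agent.Lib.MP_ac5134_an.FR.Defs

/-!
# FR2-Count: a good multiplier

`count_bad`: `p` prime, `p ∤ c`, `M ≥ 1`.  On `q ∈ {1, …, p - 1}` the map `q ↦ (q c) % p` (integer remainder in `[0, p)`) is
injective (`p ∣ (q - q') c → p ∣ q - q' → q = q'`) with values in `{1, …, p - 1}`.  The multiples of `M` in
`{1, …, p - 1}` are `M, 2 M, …`, their number `N` satisfies `N M ≤ p - 1`
(`Nat.card_multiples`, `Nat.div_mul_le_self`).
`exists_mult`: otherwise every `q ∈ {1, …, p - 1}` is bad for some `c ∈ S` (such a `q` is prime to `p`), so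
`p - 1 ≤ ∑ c ∈ S, #bad c`, `(p - 1) M ≤ #S (p - 1) < M (p - 1)`.
-/

open Finset

namespace Pool.Agent.MPac5134.FR

theorem count_bad {p : ℕ} (hp : p.Prime) {M : ℕ} (hM : 1 ≤ M) {c : ℤ} (hc : ¬ (p : ℤ) ∣ c) :
    ((Finset.Ico 1 p).filter (fun q : ℕ => (M : ℤ) ∣ ((q : ℤ) * c) % p)).card * M ≤ p - 1 := by
  classical
  have hp0 : (0 : ℤ) < p := by exact_mod_cast hp.pos
  have hpp : Prime (p : ℤ) := Nat.prime_iff_prime_int.mp hp
  have h1 : ((Finset.Ico 1 p).filter (fun q : ℕ => (M : ℤ) ∣ ((q : ℤ) * c) % p)).card ≤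
      ((Finset.Ioc 0 (p - 1)).filter (fun x : ℕ => M ∣ x)).card := by
    apply Finset.card_le_card_of_injOn (fun q : ℕ => (((q : ℤ) * c) % p).toNat)
    · intro q hq
      simp only [Finset.coe_filter, Finset.mem_Ico, Set.mem_ofPred_eq] at hq
      obtain ⟨⟨h1, h2⟩, h3⟩ := hq
      simp only [Finset.coe_filter, Finset.mem_Ioc, Set.mem_ofPred_eq]
      have h4 : 0 ≤ ((q : ℤ) * c) % p := Int.emod_nonneg _ hp0.ne'
      have h5 : ((q : ℤ) * c) % p < p := Int.emod_lt_of_pos _ hp0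
      have h6 : ((q : ℤ) * c) % p ≠ 0 := by
        intro h0
        rcases hpp.dvd_or_dvd (Int.dvd_of_emod_eq_zero h0) with h7 | h7
        · have h8 : p ∣ q := by exact_mod_cast h7
          have := Nat.le_of_dvd (by omega) h8
          omega
        · exact hc h7
      refine ⟨⟨by omega, by omega⟩, ?_⟩
      have h9 : ((((q : ℤ) * c) % p).toNat : ℤ) = ((q : ℤ) * c) % p := Int.toNat_of_nonneg h4
      have h10 : (M : ℤ) ∣ ((((q : ℤ) * c) % p).toNat : ℤ) := by rw [h9]; exact h3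
      exact_mod_cast h10
    · intro q hq q' hq' h
      simp only [Finset.coe_filter, Finset.mem_Ico, Set.mem_ofPred_eq] at hq hq'
      have h4 : 0 ≤ ((q : ℤ) * c) % p := Int.emod_nonneg _ hp0.ne'
      have h4' : 0 ≤ ((q' : ℤ) * c) % p := Int.emod_nonneg _ hp0.ne'
      have h5 : ((q : ℤ) * c) % p = ((q' : ℤ) * c) % p := by
        have h6 : ((((q : ℤ) * c) % p).toNat : ℤ) = ((((q' : ℤ) * c) % p).toNat : ℤ) := by
          exact_mod_cast h
        rwa [Int.toNat_of_nonneg h4, Int.toNat_of_nonneg h4'] at h6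
      have h7 : (p : ℤ) ∣ ((q : ℤ) - q') * c := by
        have := Int.emod_emod_of_dvd
        rw [sub_mul]
        exact Int.dvd_of_emod_eq_zero (Int.emod_eq_emod_iff_emod_sub_eq_zero.mp h5)
      rcases hpp.dvd_or_dvd h7 with h8 | h8
      · have h9 : |(q : ℤ) - q'| < p := by
          rw [abs_lt]
          constructor <;> omega
        have := Int.eq_zero_of_abs_lt_dvd h8 h9
        omega
      · exact absurd h8 hc
  rw [Nat.Ioc_filter_dvd_card_eq_div] at h1
  exact (Nat.mul_le_mul_right M h1).trans (Nat.div_mul_le_self _ _)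

theorem exists_mult {p : ℕ} (hp : p.Prime) {M : ℕ} (hM : 1 ≤ M) (S : Finset ℤ)
    (hS : ∀ c ∈ S, ¬ (p : ℤ) ∣ c) (hcard : S.card < M) :
    ∃ q : ℤ, ¬ (p : ℤ) ∣ q ∧ ∀ c ∈ S, ¬ (M : ℤ) ∣ (q * c) % p := by
  classical
  by_contra hcon
  push Not at hcon
  have h1 : Finset.Ico 1 p ⊆
      S.biUnion (fun c => (Finset.Ico 1 p).filter (fun q : ℕ => (M : ℤ) ∣ ((q : ℤ) * c) % p)) := by
    intro q hq
    have hq' := Finset.mem_Ico.mp hq
    have h2 : ¬ (p : ℤ) ∣ (q : ℤ) := by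
      intro h
      have h3 : p ∣ q := by exact_mod_cast h
      have := Nat.le_of_dvd (by omega) h3
      omega
    obtain ⟨c, hc, hc'⟩ := hcon q h2
    rw [Finset.mem_biUnion]
    exact ⟨c, hc, Finset.mem_filter.mpr ⟨hq, hc'⟩⟩
  have h2 := (Finset.card_le_card h1).trans Finset.card_biUnion_le
  rw [Nat.card_Ico] at h2
  have h3 : (p - 1) * M ≤ S.card * (p - 1) := by
    calc (p - 1) * M ≤ (∑ c ∈ S, ((Finset.Ico 1 p).filter
          (fun q : ℕ => (M : ℤ) ∣ ((q : ℤ) * c) % p)).card) * M := Nat.mul_le_mul_right M h2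
      _ = ∑ c ∈ S, ((Finset.Ico 1 p).filter
          (fun q : ℕ => (M : ℤ) ∣ ((q : ℤ) * c) % p)).card * M := Finset.sum_mul _ _ _
      _ ≤ ∑ c ∈ S, (p - 1) := Finset.sum_le_sum fun c hc => count_bad hp hM (hS c hc)
      _ = S.card * (p - 1) := by rw [Finset.sum_const, smul_eq_mul]
  have h4 : 0 < p - 1 := by have := hp.two_le; omega
  have h5 : S.card * (p - 1) < M * (p - 1) := Nat.mul_lt_mul_of_pos_right hcard h4
  rw [Nat.mul_comm M] at h5
  omega

end Pool.Agent.MPac5134.FR
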