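import Pool.Agent.Lib.MP_ac5134_an.LatDefs

/-!
# Freiman's theorem with Bohr sets: definitions
-/

open Finset Matrix

namespace Pool.Agent.MPac5134.FR

open Pool.Agent.MPac5134.Lat

/-- the linear functionals `l₀(n) = n₀ / M`, `l_{i+1}(n) = n₀ ξ_i / M - n_{i+1}` -/
noncomputable def lf {r : ℕ} (M : ℕ) (ξ : Fin r → ℤ) (n : Fin (r + 1) → ℤ) : Fin (r + 1) → ℝ :=
  Fin.cons ((n 0 : ℝ) / M) (fun i => (n 0 : ℝ) * ξ i / M - n i.succ)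

@[simp] theorem lf_zero_idx {r : ℕ} (M : ℕ) (ξ : Fin r → ℤ) (n : Fin (r + 1) → ℤ) :
    lf M ξ n 0 = (n 0 : ℝ) / M := rfl

@[simp] theorem lf_succ_idx {r : ℕ} (M : ℕ) (ξ : Fin r → ℤ) (n : Fin (r + 1) → ℤ) (i : Fin r) :
    lf M ξ n i.succ = (n 0 : ℝ) * ξ i / M - n i.succ := rfl

theorem lf_add {r : ℕ} (M : ℕ) (ξ : Fin r → ℤ) (n n' : Fin (r + 1) → ℤ) :
    lf M ξ (n + n') = lf M ξ n + lf M ξ n' := by
  ext i
  refine Fin.cases ?_ (fun i => ?_) i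
  · simp only [lf_zero_idx, Pi.add_apply]
    push_cast
    ring
  · simp only [lf_succ_idx, Pi.add_apply]
    push_cast
    ring

theorem lf_neg {r : ℕ} (M : ℕ) (ξ : Fin r → ℤ) (n : Fin (r + 1) → ℤ) :
    lf M ξ (-n) = -lf M ξ n := by
  ext i
  refine Fin.cases ?_ (fun i => ?_) i
  · simp only [lf_zero_idx, Pi.neg_apply]
    push_cast
    ring
  · simp only [lf_succ_idx, Pi.neg_apply]
    push_cast
    ring

theorem lf_zero {r : ℕ} (M : ℕ) (ξ : Fin r → ℤ) : lf M ξ 0 = 0 := by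
  ext i
  refine Fin.cases ?_ (fun i => ?_) i
  · simp
  · simp

theorem lf_sum {r : ℕ} (M : ℕ) (ξ : Fin r → ℤ) {ι : Type*} (s : Finset ι)
    (u : ι → Fin (r + 1) → ℤ) : lf M ξ (∑ i ∈ s, u i) = ∑ i ∈ s, lf M ξ (u i) := by
  classical
  induction s using Finset.induction_on with
  | empty => simp [lf_zero]
  | insert a s ha ih => rw [Finset.sum_insert ha, Finset.sum_insert ha, lf_add, ih]

/-- the box `{n : |l_i(n)| ≤ ρ}` -/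
def Box {r : ℕ} (M : ℕ) (ξ : Fin r → ℤ) (ρ : ℝ) : Set (Fin (r + 1) → ℤ) :=
  {n | ∀ i, |lf M ξ n i| ≤ ρ}

theorem Box.mono {r : ℕ} {M : ℕ} {ξ : Fin r → ℤ} {ρ ρ' : ℝ} (h : ρ ≤ ρ') {n : Fin (r + 1) → ℤ}
    (hn : n ∈ Box M ξ ρ) : n ∈ Box M ξ ρ' := fun i => (hn i).trans h

theorem Box.add {r : ℕ} {M : ℕ} {ξ : Fin r → ℤ} {ρ ρ' : ℝ} {n n' : Fin (r + 1) → ℤ}
    (hn : n ∈ Box M ξ ρ) (hn' : n' ∈ Box M ξ ρ') : n + n' ∈ Box M ξ (ρ + ρ') := by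
  intro i
  rw [lf_add, Pi.add_apply]
  exact (abs_add_le _ _).trans (add_le_add (hn i) (hn' i))

theorem Box.neg {r : ℕ} {M : ℕ} {ξ : Fin r → ℤ} {ρ : ℝ} {n : Fin (r + 1) → ℤ}
    (hn : n ∈ Box M ξ ρ) : -n ∈ Box M ξ ρ := by
  intro i
  rw [lf_neg, Pi.neg_apply, abs_neg]
  exact hn i

theorem Box.zero {r : ℕ} {M : ℕ} {ξ : Fin r → ℤ} {ρ : ℝ} (h : 0 ≤ ρ) : 0 ∈ Box M ξ ρ := by
  intro i
  rw [lf_zero]
  simpa using h

/-- `π` is a Freiman isomorphism of order `6` on `A` -/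
def Iso6 {H K : Type} [AddCommGroup H] [AddCommGroup K] (A : Finset H) (π : H → K) : Prop :=
  ∀ x y : Fin 6 → H, (∀ i, x i ∈ A) → (∀ i, y i ∈ A) →
    (∑ i, x i = ∑ i, y i ↔ ∑ i, π (x i) = ∑ i, π (y i))

/-- local additivity on the box of size `1/4` -/
def LocAdd {r : ℕ} (M : ℕ) (ξ : Fin r → ℤ) {H : Type} [AddCommGroup H]
    (θ : (Fin (r + 1) → ℤ) → H) : Prop :=
  ∀ n n', n ∈ Box M ξ (1 / 4) → n' ∈ Box M ξ (1 / 4) → n + n' ∈ Box M ξ (1 / 4) →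
    θ (n + n') = θ n + θ n'

end Pool.Agent.MPac5134.FR
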