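import Mathlib

/-!
# FR2-Frac: few fractional coordinates

Strong induction on the number `N` of fractional coordinates of `c` on `s` (`0 < c i < 1`).  If `N ≤ m` take `c' = c`.
If `N > m`: let `f = s.filter (0 < c i < 1)`; the linear map `(f → ℝ) → (Fin m → ℝ)`, `ν ↦ (∑ i ν i L j i)_j` has a
nontrivial kernel (`LinearMap.ker_ne_bot_of_finrank_lt` or `Module.exists_nontrivial_relation_of_finrank_lt_card`): `ν ≠ 0`
supported in `f`.  For `i ∈ f` with `ν i ≠ 0` put `t i = (1 - c i) / ν i` if `ν i > 0`, `t i = c i / (- ν i)` if `ν i < 0`;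
`t = min t i > 0` (over a nonempty finite set).  `c + t ν` has values in `[0, 1]` on `s`, the same sums, and one
fractional coordinate less at least (the minimiser becomes `0` or `1`; coordinates outside `f` unchanged).
-/

open Finset

namespace Pool.Agent.MPac5134.FR

private theorem few_fractional_step {ι : Type} [DecidableEq ι] (s : Finset ι) (m : ℕ)
    (L : Fin m → ι → ℝ) (c : ι → ℝ) (hc : ∀ i ∈ s, 0 ≤ c i ∧ c i ≤ 1)
    (hN : m < (s.filter (fun i => 0 < c i ∧ c i < 1)).card) :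
    ∃ c' : ι → ℝ, (∀ i ∈ s, 0 ≤ c' i ∧ c' i ≤ 1) ∧
      (∀ j, ∑ i ∈ s, c' i * L j i = ∑ i ∈ s, c i * L j i) ∧
      (s.filter (fun i => 0 < c' i ∧ c' i < 1)).card <
        (s.filter (fun i => 0 < c i ∧ c i < 1)).card := by
  set f := s.filter (fun i => 0 < c i ∧ c i < 1) with hf
  have hfs : f ⊆ s := Finset.filter_subset _ _
  have hker : LinearMap.ker (Matrix.mulVecLin (Matrix.of fun (j : Fin m) (i : f) => L j i)) ≠ ⊥ := by
    apply LinearMap.ker_ne_bot_of_finrank_lt
    simp only [Module.finrank_fintype_fun_eq_card, Fintype.card_fin, Fintype.card_coe]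
    exact hN
  obtain ⟨ν, hν, hν0⟩ := Submodule.exists_mem_ne_zero_of_ne_bot hker
  rw [LinearMap.mem_ker] at hν
  obtain ⟨i₁, hi₁⟩ : ∃ i, ν i ≠ 0 := by
    by_contra h
    push Not at h
    exact hν0 (funext h)
  set ν' : ι → ℝ := fun i => if h : i ∈ f then ν ⟨i, h⟩ else 0 with hν'
  have hν'f : ∀ i (h : i ∈ f), ν' i = ν ⟨i, h⟩ := fun i h => by simp only [hν', dif_pos h]
  have hν'n : ∀ i, i ∉ f → ν' i = 0 := fun i h => by simp only [hν', dif_neg h]
  have hsum : ∀ j, ∑ i ∈ s, ν' i * L j i = 0 := by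
    intro j
    have h1 : ∑ i ∈ s, ν' i * L j i = ∑ i ∈ f, ν' i * L j i := by
      symm
      apply Finset.sum_subset hfs
      intro i _ hi
      rw [hν'n i hi, zero_mul]
    rw [h1, ← Finset.sum_coe_sort]
    have h2 := congrFun hν j
    simp only [Matrix.mulVecLin_apply, Matrix.mulVec, dotProduct, Matrix.of_apply,
      Pi.zero_apply] at h2
    rw [← h2]
    apply Finset.sum_congr rfl
    intro i _
    rw [hν'f i.1 i.2, mul_comm]
  set g := f.filter (fun i => ν' i ≠ 0) with hg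
  have hgne : g.Nonempty := ⟨i₁.1, by
    rw [hg, Finset.mem_filter]
    exact ⟨i₁.2, by rw [hν'f i₁.1 i₁.2]; exact hi₁⟩⟩
  obtain ⟨i₀, hi₀, hmin⟩ := Finset.exists_min_image g
    (fun i => if 0 < ν' i then (1 - c i) / ν' i else c i / (-ν' i)) hgne
  rw [hg, Finset.mem_filter] at hi₀
  obtain ⟨hi₀f, hi₀ν⟩ := hi₀
  set t : ℝ := if 0 < ν' i₀ then (1 - c i₀) / ν' i₀ else c i₀ / (-ν' i₀) with ht
  have hfc : ∀ i ∈ f, 0 < c i ∧ c i < 1 := fun i hi => (Finset.mem_filter.1 hi).2
  have htpos : 0 < t := by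
    rw [ht]
    split_ifs with h
    · exact div_pos (by linarith [(hfc i₀ hi₀f).2]) h
    · exact div_pos (hfc i₀ hi₀f).1 (by
        have : ν' i₀ < 0 := lt_of_le_of_ne (not_lt.1 h) hi₀ν
        linarith)
  have htle : ∀ i ∈ f, (0 < ν' i → t * ν' i ≤ 1 - c i) ∧ (ν' i < 0 → t * (-ν' i) ≤ c i) := by
    intro i hi
    refine ⟨fun h => ?_, fun h => ?_⟩
    · have h1 := hmin i (by rw [hg, Finset.mem_filter]; exact ⟨hi, h.ne'⟩)
      simp only [if_pos h] at h1
      rwa [le_div_iff₀ h] at h1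
    · have h1 := hmin i (by rw [hg, Finset.mem_filter]; exact ⟨hi, h.ne⟩)
      simp only [if_neg (not_lt.2 h.le)] at h1
      rwa [le_div_iff₀ (by linarith)] at h1
  have hteq : c i₀ + t * ν' i₀ = 0 ∨ c i₀ + t * ν' i₀ = 1 := by
    rw [ht]
    split_ifs with h
    · right
      field_simp
      ring
    · left
      have h' : ν' i₀ ≠ 0 := hi₀ν
      field_simp
      ring
  refine ⟨fun i => c i + t * ν' i, ?_, ?_, ?_⟩
  · intro i hi
    by_cases hif : i ∈ f
    · rcases lt_trichotomy (ν' i) 0 with h | h | h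
      · have h1 := (htle i hif).2 h
        have h2 : t * ν' i < 0 := mul_neg_of_pos_of_neg htpos h
        have h3 := hc i hi
        refine ⟨?_, ?_⟩ <;> linarith [h1, h2, h3.1, h3.2]
      · simp only [h, mul_zero, add_zero]
        exact hc i hi
      · have h1 := (htle i hif).1 h
        have h2 : 0 < t * ν' i := mul_pos htpos h
        have h3 := hc i hi
        refine ⟨?_, ?_⟩ <;> linarith [h1, h2, h3.1, h3.2]
    · simp only [hν'n i hif, mul_zero, add_zero]
      exact hc i hi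
  · intro j
    have h1 : ∀ i ∈ s, (c i + t * ν' i) * L j i = c i * L j i + t * (ν' i * L j i) := by
      intro i _
      ring
    rw [Finset.sum_congr rfl h1, Finset.sum_add_distrib, ← Finset.mul_sum, hsum j]
    ring
  · apply Finset.card_lt_card
    rw [Finset.ssubset_iff_of_subset]
    · refine ⟨i₀, hi₀f, ?_⟩
      rw [Finset.mem_filter]
      rintro ⟨-, h1, h2⟩
      rcases hteq with h | h
      · linarith
      · linarith
    · intro i hi
      rw [Finset.mem_filter] at hi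
      by_contra hif
      apply hif
      rw [hf, Finset.mem_filter]
      refine ⟨hi.1, ?_⟩
      have h2 := hi.2
      simp only [hν'n i hif, mul_zero, add_zero] at h2
      exact h2

theorem few_fractional {ι : Type} [DecidableEq ι] (s : Finset ι) (m : ℕ) (L : Fin m → ι → ℝ)
    (c : ι → ℝ) (hc : ∀ i ∈ s, 0 ≤ c i ∧ c i ≤ 1) :
    ∃ c' : ι → ℝ, (∀ i ∈ s, 0 ≤ c' i ∧ c' i ≤ 1) ∧
      (∀ j, ∑ i ∈ s, c' i * L j i = ∑ i ∈ s, c i * L j i) ∧
      (s.filter (fun i => 0 < c' i ∧ c' i < 1)).card ≤ m := by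
  induction hn : (s.filter (fun i => 0 < c i ∧ c i < 1)).card using Nat.strong_induction_on
    generalizing c with
  | _ n ih =>
    by_cases h : n ≤ m
    · exact ⟨c, hc, fun _ => rfl, by rw [hn]; exact h⟩
    · push Not at h
      obtain ⟨c₁, h1, h2, h3⟩ := few_fractional_step s m L c hc (by rw [hn]; exact h)
      rw [hn] at h3
      obtain ⟨c₂, g1, g2, g3⟩ := ih _ h3 c₁ h1 rfl
      exact ⟨c₂, g1, fun j => (g2 j).trans (h2 j), g3⟩

end Pool.Agent.MPac5134.FR
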