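import Pool.Agent.Lib.MP_ac5134_an.FR.Defs

/-!
# FR2-Hom: a homomorphism `ℤ^σ → ℤ` not vanishing on a finite set of nonzero vectors

`Finset.induction_on` on `S`.  Empty: `φ = 0`.  `insert x S`: let `φ` be given by the induction hypothesis for `S`.
If `φ x ≠ 0` keep `φ`.  Otherwise `x ≠ 0` gives a coordinate `i` with `x i ≠ 0`; let `ψ y = y i`
(`Pi.evalAddMonoidHom`) and `K = 1 + ∑ y ∈ S, |ψ y|`; take `K • φ + ψ`: on `x` it is `ψ x ≠ 0`, on `y ∈ S`
`|K φ y| ≥ K > |ψ y|`.
-/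

open Finset

namespace Pool.Agent.MPac5134.FR

theorem exists_hom {σ : Type} (S : Finset (σ → ℤ)) (hS : (0 : σ → ℤ) ∉ S) :
    ∃ φ : (σ → ℤ) →+ ℤ, ∀ x ∈ S, φ x ≠ 0 := by
  classical
  induction S using Finset.induction_on with
  | empty => exact ⟨0, fun x hx => absurd hx (Finset.notMem_empty x)⟩
  | insert x S hx ih =>
    have h0S : (0 : σ → ℤ) ∉ S := fun h => hS (Finset.mem_insert_of_mem h)
    have hx0 : x ≠ 0 := fun h => hS (h ▸ Finset.mem_insert_self x S)
    obtain ⟨φ, hφ⟩ := ih h0S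
    by_cases hxφ : φ x = 0
    · obtain ⟨i, hi⟩ : ∃ i, x i ≠ 0 := by
        by_contra h
        push Not at h
        exact hx0 (funext h)
      set ψ : (σ → ℤ) →+ ℤ := Pi.evalAddMonoidHom (fun _ : σ => ℤ) i with hψ
      have hψv : ∀ y : σ → ℤ, ψ y = y i := fun y => rfl
      set K : ℤ := 1 + ∑ y ∈ S, |ψ y| with hK
      have hK0 : 0 ≤ ∑ y ∈ S, |ψ y| := Finset.sum_nonneg fun y _ => abs_nonneg _
      have hval : ∀ y : σ → ℤ, (K • φ + ψ) y = K * φ y + ψ y := by
        intro y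
        simp [AddMonoidHom.add_apply, smul_eq_mul]
      refine ⟨K • φ + ψ, fun y hy => ?_⟩
      rw [hval]
      rcases Finset.mem_insert.mp hy with rfl | hy'
      · rw [hxφ, mul_zero, zero_add, hψv]
        exact hi
      · intro h
        have h1 : |ψ y| ≤ ∑ y ∈ S, |ψ y| :=
          Finset.single_le_sum (f := fun y => |ψ y|) (fun y _ => abs_nonneg _) hy'
        have h2 : (1 : ℤ) ≤ |φ y| := Int.one_le_abs (hφ y hy')
        have h3 : |ψ y| = K * |φ y| := by
          have : ψ y = -(K * φ y) := by linarith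
          rw [this, abs_neg, abs_mul, abs_of_nonneg (by linarith : (0 : ℤ) ≤ K)]
        nlinarith
    · refine ⟨φ, fun y hy => ?_⟩
      rcases Finset.mem_insert.mp hy with rfl | hy'
      · exact hxφ
      · exact hφ y hy'

end Pool.Agent.MPac5134.FR
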