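import Pool.Agent.Lib.MP_ac5134_an.FR.Frac

/-!
# FR2-Stein: one step of Steinitz's lemma (Grinberg, Sevastyanov)

`j = #s > k`.  Rescale: `c₁ = c · (j - 1 - k) / (j - k)`: values in `[0, 1]`, `∑ c₁ = j - 1 - k`, `∑ c₁ v = 0`.
`few_fractional` with the `k + 1` functionals `v · 0, …, v · (k-1)` and `1` (`Fin.cons` or `Fin.snoc`): `c₂` with the same sums
and at most `k + 1` fractional coordinates.  Some `c₂ i = 0`, `i ∈ s`: otherwise all `c₂ i > 0`, the number of `i` with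
`c₂ i = 1` is `j - f`, `f ≤ k + 1` the number of fractional ones; if `f = 0`: `∑ = j > j - 1 - k`; if `f ≥ 1`:
`∑ > j - f ≥ j - 1 - k`: contradiction.  Remove this `i`: `∑ i' ∈ s.erase i, c₂ = j - 1 - k = #(s.erase i) - k`.
-/

open Finset

namespace Pool.Agent.MPac5134.FR

theorem steinitz_step {ι : Type} [DecidableEq ι] {k : ℕ} (s : Finset ι) (v : ι → Fin k → ℝ)
    (c : ι → ℝ) (hc : ∀ i ∈ s, 0 ≤ c i ∧ c i ≤ 1) (hsum : ∑ i ∈ s, c i = s.card - k)
    (hv : ∀ j, ∑ i ∈ s, c i * v i j = 0) (hk : k < s.card) :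
    ∃ i ∈ s, ∃ c' : ι → ℝ, (∀ i' ∈ s.erase i, 0 ≤ c' i' ∧ c' i' ≤ 1) ∧
      ∑ i' ∈ s.erase i, c' i' = (s.erase i).card - k ∧
      ∀ j, ∑ i' ∈ s.erase i, c' i' * v i' j = 0 := by
  have hkr : (k : ℝ) + 1 ≤ s.card := by exact_mod_cast hk
  have hpos : (0 : ℝ) < s.card - k := by linarith
  set ρ : ℝ := ((s.card : ℝ) - 1 - k) / (s.card - k) with hρ
  have hρ0 : 0 ≤ ρ := div_nonneg (by linarith) hpos.le
  have hρ1 : ρ ≤ 1 := by
    rw [hρ, div_le_one hpos]; linarith
  obtain ⟨c2, h2, hs2, hf2⟩ := few_fractional s (k + 1)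
    (fun a i => if h : a.val < k then v i ⟨a.val, h⟩ else 1) (fun i => c i * ρ)
    (fun i hi => ⟨mul_nonneg (hc i hi).1 hρ0, mul_le_one₀ (hc i hi).2 hρ0 hρ1⟩)
  have hsum2 : ∑ i ∈ s, c2 i = s.card - 1 - k := by
    have h := hs2 (Fin.last k)
    simp only [Fin.val_last, lt_self_iff_false, dite_false, mul_one] at h
    rw [h, ← Finset.sum_mul, hsum, hρ, mul_div_cancel₀ _ hpos.ne']
  have hv2 : ∀ j, ∑ i ∈ s, c2 i * v i j = 0 := by
    intro j
    have h := hs2 j.castSucc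
    simp only [Fin.val_castSucc, j.2, dite_true, Fin.eta] at h
    rw [h]
    have : ∀ i, c i * ρ * v i j = ρ * (c i * v i j) := fun i => by ring
    simp only [this, ← Finset.mul_sum, hv j, mul_zero]
  have hex : ∃ i ∈ s, c2 i = 0 := by
    by_contra hne
    push Not at hne
    have hp : ∀ i ∈ s, 0 < c2 i := fun i hi => lt_of_le_of_ne (h2 i hi).1 (Ne.symm (hne i hi))
    set f := s.filter (fun i => 0 < c2 i ∧ c2 i < 1) with hfdef
    have hsplit : ∑ i ∈ s, c2 i = ∑ i ∈ f, c2 i + ∑ i ∈ s.filter (fun i => ¬ (0 < c2 i ∧ c2 i < 1)), c2 i :=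
      (Finset.sum_filter_add_sum_filter_not s _ _).symm
    have hone : ∑ i ∈ s.filter (fun i => ¬ (0 < c2 i ∧ c2 i < 1)), c2 i
        = (s.filter (fun i => ¬ (0 < c2 i ∧ c2 i < 1))).card := by
      rw [Finset.card_eq_sum_ones, Nat.cast_sum]
      apply Finset.sum_congr rfl
      intro i hi
      rw [Finset.mem_filter] at hi
      have h1 := hp i hi.1
      have h3 := (h2 i hi.1).2
      have h4 : ¬ c2 i < 1 := fun h => hi.2 ⟨h1, h⟩
      push_cast
      linarith [not_lt.mp h4]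
    have hcard : f.card + (s.filter (fun i => ¬ (0 < c2 i ∧ c2 i < 1))).card = s.card :=
      Finset.card_filter_add_card_filter_not _
    have hcardr : (f.card : ℝ) + ((s.filter (fun i => ¬ (0 < c2 i ∧ c2 i < 1))).card : ℝ) = s.card := by
      exact_mod_cast hcard
    have hfk : (f.card : ℝ) ≤ k + 1 := by exact_mod_cast hf2
    have hkey : ∑ i ∈ f, c2 i = (f.card : ℝ) - 1 - k := by linarith
    rcases f.eq_empty_or_nonempty with he | hn
    · rw [he] at hkey
      simp only [Finset.sum_empty, Finset.card_empty, Nat.cast_zero] at hkey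
      have : (0 : ℝ) ≤ k := Nat.cast_nonneg k
      linarith
    · have : 0 < ∑ i ∈ f, c2 i :=
        Finset.sum_pos (fun i hi => hp i (Finset.mem_filter.mp hi).1) hn
      linarith
  obtain ⟨i, hi, hi0⟩ := hex
  refine ⟨i, hi, c2, fun i' hi' => h2 i' (Finset.mem_of_mem_erase hi'), ?_, fun j => ?_⟩
  · have h := Finset.add_sum_erase s c2 hi
    rw [hi0, zero_add] at h
    rw [h, hsum2, Finset.card_erase_of_mem hi, Nat.cast_sub (by omega)]
    push_cast
    ring
  · have h := Finset.add_sum_erase s (fun i' => c2 i' * v i' j) hi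
    simp only [hi0, zero_mul, zero_add] at h
    rw [h, hv2 j]

end Pool.Agent.MPac5134.FR
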