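import Pool.Agent.Lib.MP_ac5134_an.FR.Defs
import Pool.Agent.Lib.MP_ac5134_an.FR.Stein

/-!
# FR2-LocSum: a locally additive map respects relations between points of the small box

`k = r + 1`, `ρ = 1 / (4 (r + 1))`, `v i = lf M ξ (u i)`, `|v i j| ≤ ρ` for `i ∈ s`.
* (small) if `#s ≤ k` and all `u i`, `i ∈ s`, are in `Box ρ`, then `∑ i ∈ s, u i ∈ Box (#s ρ) ⊆ Box (1/4)` and
  `θ (∑ u i) = ∑ θ (u i)`: induction on `s` (`θ 0 = 0` from `LocAdd` at `0, 0`).
* (main) by induction on `#s`: if there are weights `c` on `s` with values in `[0,1]`, `∑ c = #s - k`, `∑ c v = 0` and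
  `#s ≥ k`, then `θ (∑ u i) = ∑ θ (u i)`.  If `#s = k`: (small).  If `#s > k`: `steinitz_step` gives `i` and weights on
  `s.erase i`.  `lf (∑ i ∈ s, u i) = ∑ v i = ∑ (1 - c i) v i`, of absolute value `≤ ρ ∑ (1 - c i) = k ρ = 1/4`; the same for
  `s.erase i`; so `θ (∑ s) = θ (∑ (s.erase i)) + θ (u i)` by `LocAdd` (all three in `Box (1/4)`).
* `∑ i ∈ s, u i = 0`: if `#s ≤ k`: (small).  If `#s > k`: weights `c i = (#s - k) / #s`.  In both cases
  `∑ θ (u i) = θ 0 = 0`.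
-/

open Finset

namespace Pool.Agent.MPac5134.FR

theorem loc_zero {r M : ℕ} {ξ : Fin r → ℤ} {H : Type} [AddCommGroup H]
    {θ : (Fin (r + 1) → ℤ) → H} (hθ : LocAdd M ξ θ) : θ 0 = 0 := by
  have h := hθ 0 0 (Box.zero (by norm_num)) (Box.zero (by norm_num))
    (by rw [add_zero]; exact Box.zero (by norm_num))
  rw [add_zero] at h
  simpa using h

theorem loc_neg {r M : ℕ} {ξ : Fin r → ℤ} {H : Type} [AddCommGroup H]
    {θ : (Fin (r + 1) → ℤ) → H} (hθ : LocAdd M ξ θ) {n : Fin (r + 1) → ℤ}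
    (hn : n ∈ Box M ξ (1 / 4)) : θ (-n) = -θ n := by
  have h := hθ n (-n) hn (Box.neg hn) (by rw [add_neg_cancel]; exact Box.zero (by norm_num))
  rw [add_neg_cancel, loc_zero hθ] at h
  exact (neg_eq_of_add_eq_zero_right h.symm).symm

private theorem loc_rho (r : ℕ) {m : ℕ} (hm : m ≤ r + 1) :
    (m : ℝ) * (1 / (4 * ((r : ℝ) + 1))) ≤ 1 / 4 := by
  have h1 : (m : ℝ) ≤ (r : ℝ) + 1 := by exact_mod_cast hm
  have h2 : (0 : ℝ) < (r : ℝ) + 1 := by positivity
  rw [mul_one_div, div_le_div_iff₀ (by positivity) (by norm_num)]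
  linarith

private theorem loc_small {r M : ℕ} {ξ : Fin r → ℤ} {H : Type} [AddCommGroup H]
    {θ : (Fin (r + 1) → ℤ) → H} (hθ : LocAdd M ξ θ) {ι : Type}
    (u : ι → Fin (r + 1) → ℤ) (s : Finset ι) (hu : ∀ i ∈ s, u i ∈ Box M ξ (1 / (4 * (r + 1))))
    (hs : s.card ≤ r + 1) :
    (∑ i ∈ s, u i) ∈ Box M ξ ((s.card : ℝ) * (1 / (4 * (r + 1)))) ∧
      θ (∑ i ∈ s, u i) = ∑ i ∈ s, θ (u i) := by
  classical
  induction s using Finset.induction_on with
  | empty =>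
    refine ⟨?_, ?_⟩
    · rw [Finset.sum_empty]
      exact Box.zero (by simp)
    · rw [Finset.sum_empty, Finset.sum_empty, loc_zero hθ]
  | insert a s ha ih =>
    rw [Finset.card_insert_of_notMem ha] at hs
    obtain ⟨h1, h2⟩ := ih (fun i hi => hu i (Finset.mem_insert_of_mem hi)) (by omega)
    have h3 := hu a (Finset.mem_insert_self a s)
    have h4 : u a + ∑ i ∈ s, u i ∈ Box M ξ (((s.card + 1 : ℕ) : ℝ) * (1 / (4 * (r + 1)))) := by
      have h5 := Box.add h3 h1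
      have h6 : (1 / (4 * ((r : ℝ) + 1))) + (s.card : ℝ) * (1 / (4 * ((r : ℝ) + 1))) =
          ((s.card + 1 : ℕ) : ℝ) * (1 / (4 * ((r : ℝ) + 1))) := by
        push_cast
        ring
      rw [h6] at h5
      exact h5
    rw [Finset.sum_insert ha, Finset.sum_insert ha, Finset.card_insert_of_notMem ha]
    refine ⟨h4, ?_⟩
    have h7 : (1 / (4 * ((r : ℝ) + 1))) ≤ 1 / 4 := by
      have := loc_rho r (m := 1) (by omega)
      simpa using this
    rw [hθ _ _ (Box.mono h7 h3) (Box.mono (loc_rho r (by omega)) h1)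
      (Box.mono (loc_rho r hs) h4), h2]

private theorem loc_box {r M : ℕ} {ξ : Fin r → ℤ} {ι : Type}
    (u : ι → Fin (r + 1) → ℤ) (s : Finset ι) (hu : ∀ i ∈ s, u i ∈ Box M ξ (1 / (4 * (r + 1))))
    (c : ι → ℝ) (hc : ∀ i ∈ s, 0 ≤ c i ∧ c i ≤ 1) (hsum : ∑ i ∈ s, c i = s.card - (r + 1 : ℕ))
    (hv : ∀ j, ∑ i ∈ s, c i * lf M ξ (u i) j = 0) :
    (∑ i ∈ s, u i) ∈ Box M ξ (1 / 4) := by
  intro j
  rw [lf_sum, Finset.sum_apply]
  have h1 : ∑ i ∈ s, lf M ξ (u i) j = ∑ i ∈ s, (1 - c i) * lf M ξ (u i) j := by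
    have : ∑ i ∈ s, (1 - c i) * lf M ξ (u i) j =
        ∑ i ∈ s, lf M ξ (u i) j - ∑ i ∈ s, c i * lf M ξ (u i) j := by
      rw [← Finset.sum_sub_distrib]
      exact Finset.sum_congr rfl fun i _ => by ring
    rw [this, hv j, sub_zero]
  rw [h1]
  have h2 : ∀ i ∈ s, |(1 - c i) * lf M ξ (u i) j| ≤ (1 - c i) * (1 / (4 * ((r : ℝ) + 1))) := by
    intro i hi
    rw [abs_mul, abs_of_nonneg (by have := (hc i hi).2; linarith : (0 : ℝ) ≤ 1 - c i)]
    exact mul_le_mul_of_nonneg_left (hu i hi j) (by have := (hc i hi).2; linarith)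
  refine (Finset.abs_sum_le_sum_abs _ _).trans ((Finset.sum_le_sum h2).trans ?_)
  rw [← Finset.sum_mul, Finset.sum_sub_distrib, hsum]
  simp only [Finset.sum_const, nsmul_eq_mul, mul_one]
  have h3 : ((s.card : ℝ) - ((s.card : ℝ) - ((r + 1 : ℕ) : ℝ))) = ((r + 1 : ℕ) : ℝ) := by ring
  rw [h3]
  exact loc_rho r le_rfl

private theorem loc_main {r M : ℕ} {ξ : Fin r → ℤ} {H : Type} [AddCommGroup H]
    {θ : (Fin (r + 1) → ℤ) → H} (hθ : LocAdd M ξ θ) {ι : Type}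
    (u : ι → Fin (r + 1) → ℤ) : ∀ (m : ℕ) (s : Finset ι), s.card = m →
    (∀ i ∈ s, u i ∈ Box M ξ (1 / (4 * (r + 1)))) → r + 1 ≤ s.card →
    ∀ (c : ι → ℝ), (∀ i ∈ s, 0 ≤ c i ∧ c i ≤ 1) → ∑ i ∈ s, c i = s.card - (r + 1 : ℕ) →
    (∀ j, ∑ i ∈ s, c i * lf M ξ (u i) j = 0) → θ (∑ i ∈ s, u i) = ∑ i ∈ s, θ (u i) := by
  classical
  intro m
  induction m with
  | zero =>
    intro s hs hu hk
    omega
  | succ m ih =>
    intro s hs hu hk c hc hsum hv
    rcases Nat.eq_or_lt_of_le hk with he | hlt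
    · exact (loc_small hθ u s hu (by omega)).2
    · obtain ⟨i, hi, c', hc', hsum', hv'⟩ :=
        steinitz_step s (fun i => lf M ξ (u i)) c hc hsum hv hlt
      have hcard : (s.erase i).card = m := by
        rw [Finset.card_erase_of_mem hi, hs]
        rfl
      have hu' : ∀ i' ∈ s.erase i, u i' ∈ Box M ξ (1 / (4 * (r + 1))) :=
        fun i' hi' => hu i' (Finset.mem_of_mem_erase hi')
      have h1 := ih (s.erase i) hcard hu' (by omega) c' hc' hsum' hv'
      have h2 := loc_box u s hu c hc hsum hv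
      have h3 := loc_box u (s.erase i) hu' c' hc' hsum' hv'
      have h4 : u i ∈ Box M ξ (1 / 4) := by
        have := loc_rho r (m := 1) (by omega)
        refine Box.mono (by simpa using this) (hu i hi)
      rw [← Finset.add_sum_erase s u hi] at h2 ⊢
      rw [hθ _ _ h4 h3 h2, h1, Finset.add_sum_erase s (fun i => θ (u i)) hi]

theorem loc_sum {r M : ℕ} {ξ : Fin r → ℤ} {H : Type} [AddCommGroup H]
    {θ : (Fin (r + 1) → ℤ) → H} (hθ : LocAdd M ξ θ) {ι : Type} (s : Finset ι)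
    (u : ι → Fin (r + 1) → ℤ) (hu : ∀ i ∈ s, u i ∈ Box M ξ (1 / (4 * (r + 1))))
    (h0 : ∑ i ∈ s, u i = 0) : ∑ i ∈ s, θ (u i) = 0 := by
  have h1 : θ (∑ i ∈ s, u i) = ∑ i ∈ s, θ (u i) := by
    rcases Nat.lt_or_ge s.card (r + 1) with hs | hs
    · exact (loc_small hθ u s hu hs.le).2
    · have hpos : (0 : ℝ) < s.card := by
        have : 0 < s.card := by omega
        exact_mod_cast this
      have hle : ((r + 1 : ℕ) : ℝ) ≤ s.card := by exact_mod_cast hs
      refine loc_main hθ u s.card s rfl hu hs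
        (fun _ => ((s.card : ℝ) - (r + 1 : ℕ)) / s.card) ?_ ?_ ?_
      · intro i _
        refine ⟨div_nonneg (by linarith) hpos.le, ?_⟩
        rw [div_le_one hpos]
        have : (0 : ℝ) ≤ ((r + 1 : ℕ) : ℝ) := by positivity
        linarith
      · rw [Finset.sum_const, nsmul_eq_mul, mul_div_cancel₀ _ hpos.ne']
      · intro j
        rw [← Finset.mul_sum]
        have h2 : ∑ i ∈ s, lf M ξ (u i) j = 0 := by
          rw [← Finset.sum_apply, ← lf_sum, h0, lf_zero]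
          rfl
        rw [h2, mul_zero]
  rw [← h1, h0, loc_zero hθ]

end Pool.Agent.MPac5134.FR
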