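import Pool.Agent.Lib.MP_ac5134_an.FR.Hom
import Pool.Agent.Lib.MP_ac5134_an.FR.Count

/-!
# FR2-Model: Ruzsa's model lemma of order `6`

`D6 = 6 • G - 6 • G`, `#D6 ≤ M`.  `0 ∈ D6`.
* `φ` from `exists_hom` for `D6.erase 0`.
* `p` a prime larger than all `|φ x|`, `x ∈ D6` (`Nat.exists_infinite_primes`), so `p ∤ φ x` for `x ∈ D6.erase 0`.
* `S = (D6.erase 0).image φ`, `#S ≤ M - 1 < M`; `q` from `exists_mult`.
* `τ g = (q * φ g) % p ∈ [0, p)`, `cls g = 6 * τ g / p ∈ {0, …, 5}`; by pigeonhole some class `G'` has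
  `#G ≤ 6 #G'` (`Finset.exists_le_card_fiber_of_mul_le_card_of_maps_to` or a sum over the 6 classes).
* For `g, g' ∈ G'`: `6 |τ g - τ g'| < p`.  `π g = (τ g : ZMod M)`.
* `Iso6`: let `x, y : Fin 6 → G'`, `u = ∑ x i - ∑ y i ∈ D6` (`x i, y i ∈ G`; membership in `6 • G`:
  `Finset.sum_mem_nsmul`-like, or `Finset.mem_nsmul`, or unfold `6 • G = G + G + …`), `d = ∑ τ (x i) - ∑ τ (y i)`:
  `|d| < p`, `d ≡ q φ(u) (mod p)`.
  (→) `u = 0`: `p ∣ d`, so `d = 0`.  (←) `M ∣ d` and, if `u ≠ 0`: `p ∤ q φ(u)`, so `d ≠ 0`.  If `d > 0` then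
  `d = (q φ(u)) % p`, contradiction with the choice of `q` for `c = φ(u)`; if `d < 0`, then `-d = (q φ(-u)) % p`,
  `-u ∈ D6`, `M ∣ -d`, contradiction for `c = φ(-u)`.
-/

open Finset
open scoped Pointwise

namespace Pool.Agent.MPac5134.FR

private theorem model_sum_mem {H : Type} [AddCommGroup H] [DecidableEq H] (G : Finset H) :
    ∀ (n : ℕ) (x : Fin n → H), (∀ i, x i ∈ G) → ∑ i, x i ∈ n • G := by
  intro n
  induction n with
  | zero =>
    intro x _
    simp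
  | succ n ih =>
    intro x hx
    rw [Fin.sum_univ_castSucc, succ_nsmul]
    exact Finset.add_mem_add (ih _ fun i => hx _) (hx _)

private theorem model_emod_eq {p d c : ℤ} (h0 : 0 ≤ d) (h1 : d < p) (h : p ∣ d - c) : c % p = d := by
  have h2 : d % p = c % p := Int.emod_eq_emod_iff_emod_sub_eq_zero.mpr (Int.emod_eq_zero_of_dvd h)
  rw [← h2, Int.emod_eq_of_lt h0 h1]

theorem model {σ : Type} [DecidableEq (σ → ℤ)] (G : Finset (σ → ℤ)) (hG : G.Nonempty) (M : ℕ)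
    (hM : (6 • G - 6 • G).card ≤ M) :
    ∃ G' ⊆ G, G.card ≤ 6 * G'.card ∧ ∃ π : (σ → ℤ) → ZMod M, Iso6 G' π := by
  classical
  obtain ⟨D, hD⟩ : ∃ D : Finset (σ → ℤ), D = 6 • G - 6 • G := ⟨_, rfl⟩
  have hDmem : ∀ x y : Fin 6 → (σ → ℤ), (∀ i, x i ∈ G) → (∀ i, y i ∈ G) →
      ∑ i, x i - ∑ i, y i ∈ D := by
    intro x y hx hy
    rw [hD]
    exact Finset.sub_mem_sub (model_sum_mem G 6 x hx) (model_sum_mem G 6 y hy)
  obtain ⟨g₀, hg₀⟩ := hG
  have h0D : (0 : σ → ℤ) ∈ D := by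
    have h1 := hDmem (fun _ => g₀) (fun _ => g₀) (fun _ => hg₀) (fun _ => hg₀)
    rwa [sub_self] at h1
  rw [← hD] at hM
  have hDpos : 0 < D.card := Finset.card_pos.mpr ⟨0, h0D⟩
  have hM1 : 1 ≤ M := by omega
  obtain ⟨φ, hφ⟩ := exists_hom (D.erase 0) (Finset.notMem_erase 0 D)
  obtain ⟨p, hp1, hp⟩ := Nat.exists_infinite_primes ((∑ x ∈ D, (φ x).natAbs) + 1)
  have hppos : (0 : ℤ) < p := by exact_mod_cast hp.pos
  have hpp : Prime (p : ℤ) := Nat.prime_iff_prime_int.mp hp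
  have hφp : ∀ x ∈ D.erase 0, ¬ (p : ℤ) ∣ φ x := by
    intro x hx hdvd
    have h1 : (φ x).natAbs ≤ ∑ x ∈ D, (φ x).natAbs :=
      Finset.single_le_sum (f := fun x => (φ x).natAbs) (fun _ _ => Nat.zero_le _) (Finset.mem_of_mem_erase hx)
    have h2 : p ∣ (φ x).natAbs := Int.natCast_dvd.mp hdvd
    have h3 : (φ x).natAbs ≠ 0 := Int.natAbs_ne_zero.mpr (hφ x hx)
    have h4 := Nat.le_of_dvd (Nat.pos_of_ne_zero h3) h2
    omega
  obtain ⟨q, hq, hqS⟩ := exists_mult hp hM1 ((D.erase 0).image φ) (by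
    intro c hc
    obtain ⟨x, hx, rfl⟩ := Finset.mem_image.mp hc
    exact hφp x hx) (by
    have h1 := Finset.card_image_le (s := D.erase 0) (f := φ)
    rw [Finset.card_erase_of_mem h0D] at h1
    omega)
  obtain ⟨τ, hτ⟩ : ∃ τ : (σ → ℤ) → ℤ, τ = fun g => (q * φ g) % p := ⟨_, rfl⟩
  have hτ0 : ∀ g, 0 ≤ τ g := fun g => by rw [hτ]; exact Int.emod_nonneg _ hppos.ne'
  have hτ1 : ∀ g, τ g < p := fun g => by rw [hτ]; exact Int.emod_lt_of_pos _ hppos
  have hτ2 : ∀ g, (p : ℤ) ∣ τ g - q * φ g := fun g => by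
    rw [hτ]
    have h1 : (q * φ g) % p = q * φ g - p * ((q * φ g) / p) := Int.emod_def _ _
    refine ⟨-((q * φ g) / p), ?_⟩
    simp only
    rw [h1]
    ring
  obtain ⟨cls, hcls⟩ : ∃ cls : (σ → ℤ) → ℤ, cls = fun g => 6 * τ g / p := ⟨_, rfl⟩
  have hcls_mem : ∀ g ∈ G, cls g ∈ Finset.Ico (0 : ℤ) 6 := by
    intro g _
    rw [hcls, Finset.mem_Ico]
    constructor
    · exact Int.ediv_nonneg (by linarith [hτ0 g]) hppos.le
    · simp only
      rw [Int.ediv_lt_iff_lt_mul hppos]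
      linarith [hτ1 g]
  have hfib : ∃ y ∈ Finset.Ico (0 : ℤ) 6, G.card ≤ 6 * (G.filter (fun g => cls g = y)).card := by
    by_contra hcon
    push Not at hcon
    have h1 := Finset.card_eq_sum_card_fiberwise hcls_mem
    have h2 : ∑ y ∈ Finset.Ico (0 : ℤ) 6, 6 * (G.filter (fun g => cls g = y)).card <
        ∑ y ∈ Finset.Ico (0 : ℤ) 6, G.card :=
      Finset.sum_lt_sum_of_nonempty ⟨0, by simp⟩ hcon
    rw [← Finset.mul_sum, ← h1, Finset.sum_const, Int.card_Ico] at h2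
    simp at h2
  obtain ⟨y₀, _, hy₀⟩ := hfib
  obtain ⟨G', hG'⟩ : ∃ G' : Finset (σ → ℤ), G' = G.filter (fun g => cls g = y₀) := ⟨_, rfl⟩
  rw [← hG'] at hy₀
  have hG'G : G' ⊆ G := by rw [hG']; exact Finset.filter_subset _ _
  have hclose : ∀ g ∈ G', ∀ g' ∈ G', |τ g - τ g'| * 6 < p := by
    intro g hg g' hg'
    rw [hG', Finset.mem_filter] at hg hg'
    have h1 : 6 * τ g / p = y₀ := by rw [← hg.2, hcls]
    have h2 : 6 * τ g' / p = y₀ := by rw [← hg'.2, hcls]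
    have h3 := Int.emod_add_mul_ediv (6 * τ g) p
    have h4 := Int.emod_add_mul_ediv (6 * τ g') p
    rw [h1] at h3
    rw [h2] at h4
    have h5 := Int.emod_nonneg (6 * τ g) hppos.ne'
    have h6 := Int.emod_lt_of_pos (6 * τ g) hppos
    have h7 := Int.emod_nonneg (6 * τ g') hppos.ne'
    have h8 := Int.emod_lt_of_pos (6 * τ g') hppos
    have h9 : |(τ g - τ g') * 6| < p := by
      rw [abs_lt]
      constructor <;> linarith
    rwa [abs_mul, abs_of_pos (by norm_num : (0 : ℤ) < 6)] at h9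
  refine ⟨G', hG'G, hy₀, fun g => ((τ g : ℤ) : ZMod M), ?_⟩
  intro x y hx hy
  obtain ⟨u, hu⟩ : ∃ u : σ → ℤ, u = ∑ i, x i - ∑ i, y i := ⟨_, rfl⟩
  obtain ⟨d, hd⟩ : ∃ d : ℤ, d = ∑ i, τ (x i) - ∑ i, τ (y i) := ⟨_, rfl⟩
  have huD : u ∈ D := by
    rw [hu]
    exact hDmem x y (fun i => hG'G (hx i)) (fun i => hG'G (hy i))
  have huD' : -u ∈ D := by
    rw [hu, neg_sub]
    exact hDmem y x (fun i => hG'G (hy i)) (fun i => hG'G (hx i))
  have hdabs : |d| < p := by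
    have h1 : |d| ≤ ∑ i : Fin 6, |τ (x i) - τ (y i)| := by
      rw [hd, ← Finset.sum_sub_distrib]
      exact Finset.abs_sum_le_sum_abs _ _
    have h2 : (∑ i : Fin 6, |τ (x i) - τ (y i)|) * 6 ≤ ∑ i : Fin 6, ((p : ℤ) - 1) := by
      rw [Finset.sum_mul]
      apply Finset.sum_le_sum
      intro i _
      have := hclose (x i) (hx i) (y i) (hy i)
      omega
    rw [Finset.sum_const, Finset.card_univ, Fintype.card_fin, nsmul_eq_mul] at h2
    push_cast at h2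
    omega
  have hdvd : (p : ℤ) ∣ d - q * φ u := by
    have h1 : d - q * φ u = ∑ i, (τ (x i) - q * φ (x i)) - ∑ i, (τ (y i) - q * φ (y i)) := by
      rw [hd, hu, map_sub, map_sum, map_sum, Finset.sum_sub_distrib, Finset.sum_sub_distrib,
        ← Finset.mul_sum, ← Finset.mul_sum]
      ring
    rw [h1]
    exact dvd_sub (Finset.dvd_sum fun i _ => hτ2 _) (Finset.dvd_sum fun i _ => hτ2 _)
  constructor
  · intro hxy
    have hu0 : u = 0 := by rw [hu, hxy, sub_self]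
    rw [hu0, map_zero, mul_zero, sub_zero] at hdvd
    have hd0 : d = 0 := Int.eq_zero_of_abs_lt_dvd hdvd hdabs
    have h1 : ∑ i, τ (x i) = ∑ i, τ (y i) := by linarith
    have h2 := congrArg (fun z : ℤ => (z : ZMod M)) h1
    simp only [Int.cast_sum] at h2
    exact h2
  · intro hπ
    have hMd : (M : ℤ) ∣ d := by
      rw [← ZMod.intCast_zmod_eq_zero_iff_dvd]
      rw [hd, Int.cast_sub, Int.cast_sum, Int.cast_sum]
      exact sub_eq_zero.mpr hπ
    by_contra hne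
    have hu0 : u ≠ 0 := by
      intro h
      apply hne
      rw [hu] at h
      exact sub_eq_zero.mp h
    have huE : u ∈ D.erase 0 := Finset.mem_erase.mpr ⟨hu0, huD⟩
    have huE' : -u ∈ D.erase 0 := Finset.mem_erase.mpr ⟨neg_ne_zero.mpr hu0, huD'⟩
    have hd0 : d ≠ 0 := by
      intro h
      rw [h, zero_sub] at hdvd
      have h1 : (p : ℤ) ∣ q * φ u := (dvd_neg).mp hdvd
      rcases hpp.dvd_or_dvd h1 with h2 | h2
      · exact hq h2
      · exact hφp u huE h2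
    rcases lt_or_gt_of_ne hd0 with h | h
    · have h1 : (q * φ (-u)) % p = -d := by
        apply model_emod_eq (by linarith) (by rw [abs_lt] at hdabs; linarith)
        rw [map_neg]
        have : -d - q * -φ u = -(d - q * φ u) := by ring
        rw [this]
        exact (dvd_neg).mpr hdvd
      apply hqS (φ (-u)) (Finset.mem_image_of_mem φ huE')
      rw [h1]
      exact (dvd_neg).mpr hMd
    · have h1 : (q * φ u) % p = d :=
        model_emod_eq h.le (lt_of_le_of_lt (le_abs_self d) hdabs) hdvd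
      apply hqS (φ u) (Finset.mem_image_of_mem φ huE)
      rw [h1]
      exact hMd

end Pool.Agent.MPac5134.FR
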